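import Pool.Agent.LibMH.R4
import Pool.Agent.LibWX.W11

/-!
# Row AB: the monomials in the tails: bound and approximation (SHORT/MEDIUM; template LibWX/W11.lean)

`K₁ = 1 + ∑ i, sw 1 1 (wd i)` as in `Av_polyW`: `0 ≤ aw q T (wd i) j = sw q (j + q (T + 1)) (wd i) ≤ sw 1 1 (wd i) ≤ K₁` (`sw_nonneg`, `sw_mono_x` for `Adms (wd i)`, `j + q (T + 1) ≥ 1`).  So
`|∏ i, aw ^ μ i| ≤ ∏ i, K₁ ^ μ i = K₁ ^ ∑ μ ≤ K₁ ^ m₀` (`Finset.abs_prod`, `Finset.prod_le_prod`, factors with `μ i = 0` are `1`).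
-/

namespace WX

open Finset Polynomial CM68

theorem Av_leW {q N : ℕ} (hq : 1 ≤ q) (wd : Fin N → List ℕ) (m₀ : ℕ) :
    ∃ K : ℝ, 1 ≤ K ∧ ∀ T : ℕ, ∀ μ : Fin N → ℕ, ∑ i, μ i ≤ m₀ → (∀ i, μ i ≠ 0 → Adms (wd i)) →
      ∀ j : ℕ, |∏ i, aw q T (wd i) j ^ μ i| ≤ K := by
  obtain ⟨K₁, hK₁⟩ : ∃ K₁ : ℝ, K₁ = 1 + ∑ i, sw 1 1 (wd i) := ⟨_, rfl⟩
  have hsn : ∀ i, 0 ≤ sw 1 1 (wd i) := fun i => sw_nonneg 1 (by norm_num) (wd i)
  have hK1 : 1 ≤ K₁ := by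
    rw [hK₁]
    have := Finset.sum_nonneg fun i (_ : i ∈ Finset.univ) => hsn i
    linarith
  refine ⟨K₁ ^ m₀, one_le_pow₀ hK1, ?_⟩
  intro T μ hμ hadm j
  rw [Finset.abs_prod]
  have h1 : ∏ i, |aw q T (wd i) j ^ μ i| ≤ ∏ i, K₁ ^ μ i := by
    refine Finset.prod_le_prod (fun i _ => abs_nonneg _) fun i _ => ?_
    rcases Nat.eq_zero_or_pos (μ i) with h0 | h0
    · rw [h0, pow_zero, pow_zero, abs_one]
    · have hA := hadm i (by omega)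
      have hqR : (1 : ℝ) ≤ q := by exact_mod_cast hq
      have hx : (1 : ℝ) ≤ (j : ℝ) + q * ((T : ℝ) + 1) := by
        have h2 : (0 : ℝ) ≤ (j : ℝ) := Nat.cast_nonneg j
        have h3 : (0 : ℝ) ≤ (T : ℝ) := Nat.cast_nonneg T
        nlinarith
      have h4 : 0 ≤ aw q T (wd i) j := sw_nonneg _ (by linarith) _
      have h5 : aw q T (wd i) j ≤ sw 1 1 (wd i) := sw_mono_x hq hx hA
      have h6 : sw 1 1 (wd i) ≤ ∑ i, sw 1 1 (wd i) :=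
        Finset.single_le_sum (f := fun i => sw 1 1 (wd i)) (fun i _ => hsn i) (Finset.mem_univ i)
      rw [abs_pow, abs_of_nonneg h4]
      refine pow_le_pow_left₀ h4 ?_ _
      rw [hK₁]
      linarith
  refine h1.trans ?_
  rw [Finset.prod_pow_eq_pow_sum]
  exact pow_le_pow_right₀ hK1 hμ

end WX
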