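import Pool.Agent.LibPQ.QDefs
import Pool.Agent.LibWX.WDefs

/-!
# WQ: multiple Hurwitz zeta values, polylogarithmic exceptional sets for all rational numbers of bounded denominator: definitions

The level `q` of `DatW` is a huge common multiple of the denominators; the class `x` is the rational number `x / q`, whose denominator
`b` is small.  The rows are scaled (variable `z = j / q`), so that `q` disappears from the sizes of the rows and of the common denominators.
-/

namespace WX

open Finset Polynomial CM68

namespace DatW

variable (D : DatW)

/-- the scaled rows -/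
noncomputable def rho (T : ℕ) (s : D.Ix) (j : ℕ) : ℝ :=
  (D.q : ℝ) ^ wg D.wd (s.2 : Fin D.N → ℕ) * D.row T s j

/-- the rows of the matrix -/
noncomputable def rowQ (T : ℕ) (s : D.Ix) (i j : ℕ) : ℝ := D.rho T s j * ebin i ((j : ℝ) / D.q)

/-- the columns: the denominator `b` of the class `x / q` is at most `Qb` -/
def Col (Qb x : ℕ) : Prop := ∃ d b : ℕ, 2 ≤ b ∧ b ≤ Qb ∧ D.q = d * b ∧ d ∣ x

end DatW

end WX
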