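import Pool.Agent.LibPQ.EB1
import Pool.Agent.LibWX.W10
import Pool.Agent.LibWQ.WQDefs

/-!
# Row ID: the rows are independent (SHORT/MEDIUM; template LibPQ/ID.lean, simpler: no multiplier)

`Fintype.linearIndependent_iff`; let `∑ b, v b * rowQ b.1 b.2 j = 0` at the nodes.  For `s : Sh` let `v' s` be the coefficients of `ebin_comb` for `fun i => v (s, i)`.  With `u (s, i) = q^(wg s) * v' s i`:
`∑ u (s, i) * rowc T s i j = 0` at the nodes, so it is in `D.rsp n T κ` (zero function), `rows_indW` with `d = κ` gives `u = 0`, so all `v' s = 0` (`q ≥ 2`), `v = 0` by `ebin_comb`.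
-/

namespace WX

open Finset Polynomial CM68

theorem rowQ_indW (D : DatW) (Sh : Finset D.Ix) (hdis : ∀ s ∈ Sh, s ∉ D.Sg) {n T κ : ℕ}
    (hκ : 1 ≤ κ) (hn : D.L < n)
    (hdeg : D.Sp * (D.L * (κ + D.W * D.L)) ≤ D.I.card * (n - D.L)) :
    LinearIndependent ℝ fun (b : Sh × Fin κ) (j : D.Nd n) => D.rowQ T b.1.1 b.2 (j : ℕ) := by
  classical
  have hq1 : 1 ≤ D.q := by have := D.hq; omega
  have hqne : (D.q : ℝ) ≠ 0 := by
    have : (0 : ℝ) < (D.q : ℝ) := by exact_mod_cast (show 0 < D.q by omega)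
    exact this.ne'
  rw [Fintype.linearIndependent_iff]
  intro v hv
  choose v' hv1 hv2 using fun s : Sh => ebin_comb (κ := κ) hq1 (fun i => v (s, i))
  have hzero : ∀ s : Sh, v' s = 0 := by
    have hu := rows_indW D Sh hdis (T := T) hκ le_rfl hn hdeg
      (fun a : Sh × Fin κ =>
        (D.q : ℝ) ^ wg D.wd (a.1.1.2 : Fin D.N → ℕ) * v' a.1 a.2) ?_
    · intro s
      funext i
      have h1 := congrFun hu (s, i)
      simp only [Pi.zero_apply] at h1 ⊢
      rcases mul_eq_zero.1 h1 with h2 | h2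
      · exact absurd h2 (pow_ne_zero _ hqne)
      · exact h2
    · have hz : (∑ b : Sh × Fin κ,
          ((D.q : ℝ) ^ wg D.wd (b.1.1.2 : Fin D.N → ℕ) * v' b.1 b.2) •
            fun j : D.Nd n => D.rowc T b.1.1 b.2 (j : ℕ)) = 0 := by
        funext j
        have hj := congrFun hv j
        simp only [Finset.sum_apply, Pi.smul_apply, smul_eq_mul, Pi.zero_apply] at hj ⊢
        rw [Fintype.sum_prod_type] at hj ⊢
        rw [← hj]
        refine Finset.sum_congr rfl fun s _ => ?_
        have h3 := hv1 s (j : ℕ)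
        calc ∑ y : Fin κ, (D.q : ℝ) ^ wg D.wd (s.1.2 : Fin D.N → ℕ) * v' s y *
              D.rowc T s.1 y (j : ℕ)
            = ((D.q : ℝ) ^ wg D.wd (s.1.2 : Fin D.N → ℕ) * D.row T s.1 (j : ℕ)) *
                ∑ y : Fin κ, v' s y * ((j : ℕ).choose y : ℝ) := by
              rw [Finset.mul_sum]
              refine Finset.sum_congr rfl fun y _ => ?_
              unfold DatW.rowc
              ring
          _ = ((D.q : ℝ) ^ wg D.wd (s.1.2 : Fin D.N → ℕ) * D.row T s.1 (j : ℕ)) *
                ∑ y : Fin κ, v (s, y) * ebin y (((j : ℕ) : ℝ) / D.q) := by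
              rw [← h3]
          _ = ∑ y : Fin κ, v (s, y) * D.rowQ T s.1 y (j : ℕ) := by
              rw [Finset.mul_sum]
              refine Finset.sum_congr rfl fun y _ => ?_
              unfold DatW.rowQ DatW.rho
              ring
      rw [hz]
      exact Submodule.zero_mem _
  rintro ⟨s, i⟩
  exact congrFun (hv2 s (hzero s)) i

end WX
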