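import Pool.Agent.LibMH.R1
import Pool.Agent.LibWX.WBase
import Pool.Agent.LibWQ.WQDefs

/-!
# Row SC: the change of the level (SHORT)

`pw_lev`: induction on the word (`pw` unfolds as in `pw_scale`, LibMH/R1.lean): every term: `e b m + e x = e (b m + x)`; `(e b)^k / (e (b m + x))^k = b^k / (b m + x)^k`, `e ≥ 1`.
(Or two times `pw_scale`: both sides are `pw 1 (x / b) v N`.)
`rho_lev`: `(e j) % (e b) = e (j % b)` (`Nat.mul_mod_mul_left`), `(e j) / (e b) = j / b` (`Nat.mul_div_mul_left`); `rho`, `row`, `rwf`, `pm`, `wg` unfold; `q^(∑ α i |wd i|) = ∏ (q^|wd i|)^(α i)`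
(`Finset.prod_pow_eq_pow_sum`), `pw_lev` for every factor.
-/

namespace WX

open Finset Polynomial CM68

theorem pw_lev {e b : ℕ} (he : 1 ≤ e) (hb : 1 ≤ b) (x : ℕ) (v : List ℕ) (n : ℕ) :
    ((e * b : ℕ) : ℝ) ^ v.sum * pw (e * b) ((e * x : ℕ) : ℝ) v n =
      (b : ℝ) ^ v.sum * pw b (x : ℝ) v n := by
  have hb0 : (b : ℝ) ≠ 0 := by exact_mod_cast (by omega : b ≠ 0)
  have he0 : (e : ℝ) ≠ 0 := by exact_mod_cast (by omega : e ≠ 0)
  have heb : 1 ≤ e * b := Nat.mul_pos he hb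
  rw [pw_scale heb, pw_scale hb]
  have h1 : ((e * x : ℕ) : ℝ) / ((e * b : ℕ) : ℝ) = (x : ℝ) / b := by
    push_cast
    rw [mul_div_mul_left _ _ he0]
  have h2 : ((e * b : ℕ) : ℝ) ^ v.sum ≠ 0 := by
    apply pow_ne_zero
    push_cast
    exact mul_ne_zero he0 hb0
  have h3 : (b : ℝ) ^ v.sum ≠ 0 := pow_ne_zero _ hb0
  rw [h1, ← mul_assoc, ← mul_assoc, mul_one_div_cancel h2, mul_one_div_cancel h3]

theorem rho_lev (D : DatW) {e b : ℕ} (he : 1 ≤ e) (hb : 1 ≤ b) (hq : D.q = e * b) (T j : ℕ)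
    (s : D.Ix) :
    D.rho T s (e * j) = (D.φ s.1 ((e * j) % D.q) : ℝ) *
      ((b : ℝ) ^ wg D.wd (s.2 : Fin D.N → ℕ) * pm b D.wd T s.2 j) := by
  have hw : ∀ (c : ℝ) (f : Fin D.N → ℝ), c ^ wg D.wd (s.2 : Fin D.N → ℕ) *
      ∏ i, f i ^ (s.2 : Fin D.N → ℕ) i =
      ∏ i, (c ^ (D.wd i).sum * f i) ^ (s.2 : Fin D.N → ℕ) i := by
    intro c f
    unfold wg
    rw [← Finset.prod_pow_eq_pow_sum, ← Finset.prod_mul_distrib]
    refine Finset.prod_congr rfl fun i _ => ?_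
    rw [mul_pow, ← pow_mul, Nat.mul_comm]
  have h1 : (e * j) % D.q = e * (j % b) := by
    rw [hq, Nat.mul_mod_mul_left]
  have h2 : (e * j) / D.q = j / b := by
    rw [hq, Nat.mul_div_mul_left _ _ (by omega)]
  unfold DatW.rho DatW.row rwf
  rw [mul_left_comm]
  congr 1
  unfold pm
  rw [h1, h2, hw, hw]
  refine Finset.prod_congr rfl fun i _ => ?_
  have h3 := pw_lev he hb (j % b) (D.wd i) (j / b + T + 1)
  rw [← hq] at h3
  rw [h3]

end WX
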