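import Pool.Agent.LibCM68.S1
import Pool.Agent.LibMH.R5
import Pool.Agent.LibPQ.EB2
import Pool.Agent.LibPQ.IN1
import Pool.Agent.LibWQ.SC

/-!
# Row IN: the common denominator of a column (MEDIUM; templates LibWX/W12.lean (copy the private lemmas `w12_*` needed), LibPQ/IN2.lean)

`j ∈ D.Nd n`: `j < q n`, `x = j % q ∈ I`; `hcol`: `q = e b`, `2 ≤ b ≤ Qb`, `e ∣ x`, so `e ∣ j` (`Nat.dvd_mod_iff`), `j = e j'`, `j' < b n`.
`X = D₀ * (|(WP b n T W).eval j'| * b^(2 κ))`.  `W_eval_ne` (used in `wt_posW`) at the level `b`: `0 < j' % b` as `e (j' % b) = j % q > 0` (`D.hI`); `W_le` (used in `wt_leW`) gives `|WP b ..| ≤ Wb b n T W`,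
and `Wb b n T W = b^(2 W win) * Wb 1 n T W` (unfold, `mul_pow`, `pow_mul`), `b ≤ Qb`.
`X * rowQ T s i j = (D₀ φ) * b^(wg) * (± WP b n T W (j') * pm b wd T s.2 j') * (b^(2 κ) * ebin i (j' / b))` (`rho_lev`, `j / q = j' / b`), four integers: `hco`; a power of `b`; `w12_pm` (private in W12: copy; it is stated
for any level; `D.hΛ.sub s.2.2`, `W = w B`); `ebin_int` and `b^(2 (κ - i))`.
-/

namespace WX

open Finset Polynomial CM68

private theorem IN_add (q n T a b : ℕ) (x : ℝ) :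
    (WP q n T (a + b)).eval x = (WP q n T a).eval x * (WP q n T b).eval x := by
  unfold WP
  rw [pow_add, eval_mul]

private theorem IN_mul (q n T a b : ℕ) (x : ℝ) :
    (WP q n T (a * b)).eval x = (WP q n T b).eval x ^ a := by
  unfold WP
  rw [mul_comm a b, pow_mul, eval_pow]

private theorem IN_zero (q n T : ℕ) (x : ℝ) : (WP q n T 0).eval x = 1 := by
  unfold WP
  rw [pow_zero, eval_one]

private theorem IN_prod {q w N n T j : ℕ} {wd : Fin N → List ℕ} (hwd : IsWd w wd)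
    (hj : j < q * n) (α : Fin N → ℕ) (s : Finset (Fin N)) :
    ∃ z : ℤ, (WP q n T (∑ i ∈ s, α i * (wd i).sum)).eval (j : ℝ) *
      ∏ i ∈ s, pw q ((j % q : ℕ) : ℝ) (wd i) (j / q + T + 1) ^ α i = z := by
  classical
  induction s using Finset.induction_on with
  | empty => exact ⟨1, by rw [Finset.sum_empty, Finset.prod_empty, IN_zero]; simp⟩
  | insert a s ha ih =>
    obtain ⟨z₂, h₂⟩ := ih
    obtain ⟨z₁, h₁⟩ := Wpw_int (T := T) (w := (wd a).sum) (v := wd a)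
      (((hwd.mem (wd a)).1 ⟨a, rfl⟩).2.1) le_rfl hj
    refine ⟨z₁ ^ α a * z₂, ?_⟩
    rw [Finset.sum_insert ha, Finset.prod_insert ha, IN_add, IN_mul, Int.cast_mul, Int.cast_pow,
      ← h₁, ← h₂]
    ring

private theorem IN_pm {q w N n T j B : ℕ} {wd : Fin N → List ℕ} (hwd : IsWd w wd)
    (hj : j < q * n) {α : Fin N → ℕ} (hα : α ∈ expo N B) :
    ∃ z : ℤ, (WP q n T (w * B)).eval (j : ℝ) * pm q wd T α j = z := by
  obtain ⟨z₁, h₁⟩ := IN_prod (T := T) hwd hj α Finset.univ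
  obtain ⟨z₂, h₂⟩ := W_int q n T (w * B - wg wd α) j
  refine ⟨z₁ * z₂, ?_⟩
  have h3 : w * B = wg wd α + (w * B - wg wd α) := by
    have := wg_le hwd hα
    omega
  conv_lhs => rw [h3]
  rw [IN_add, Int.cast_mul, ← h₁, ← h₂]
  unfold pm wg
  ring

private theorem IN_nd {D : DatW} {n j : ℕ} (hj : j ∈ D.Nd n) : j < D.q * n ∧ j % D.q ∈ D.I := by
  have hj' := Finset.mem_filter.1
    (show j ∈ (range (D.q * n)).filter fun j => j % D.q ∈ D.I from hj)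
  exact ⟨Finset.mem_range.1 hj'.1, hj'.2⟩

private theorem IN_Wb (b n T w : ℕ) :
    Wb b n T w = (b : ℝ) ^ (2 * (w * win n T)) * Wb 1 n T w := by
  unfold Wb
  rw [Nat.cast_one, one_pow, one_mul, mul_assoc, mul_pow, ← pow_mul]
  congr 2
  ring

private theorem IN_Wb_nonneg (b n T w : ℕ) : 0 ≤ Wb b n T w := by
  unfold Wb
  positivity

theorem col_int (D : DatW) {Qb D₀ κ n T : ℕ} (hD₀ : 1 ≤ D₀)
    (hco : ∀ h, ∀ x < D.q, ∃ m : ℤ, (D₀ : ℚ) * D.φ h x = m)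
    (hcol : ∀ x ∈ D.I, D.Col Qb x) {j : ℕ} (hj : j ∈ D.Nd n) :
    ∃ X : ℝ, 0 < X ∧
      X ≤ (D₀ : ℝ) * (Qb : ℝ) ^ (2 * (D.W * win n T) + 2 * κ) * Wb 1 n T D.W ∧
      ∀ (s : D.Ix) (i : ℕ), i ≤ κ → ∃ z : ℤ, X * D.rowQ T s i j = z := by
  obtain ⟨hlt, hI⟩ := IN_nd hj
  obtain ⟨e, b, hb2, hbQ, hqe, hdvd⟩ := hcol _ hI
  have hq2 := D.hq
  have he : 1 ≤ e := by
    rcases Nat.eq_zero_or_pos e with h | h
    · subst h
      omega
    · exact h
  have hej : e ∣ j := (Nat.dvd_mod_iff ⟨b, hqe⟩).1 hdvd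
  obtain ⟨j', rfl⟩ := hej
  have hb1 : 1 ≤ b := by omega
  have hbR : (1 : ℝ) ≤ b := by exact_mod_cast hb1
  have hj'lt : j' < b * n := by
    rw [hqe, mul_assoc] at hlt
    exact Nat.lt_of_mul_lt_mul_left hlt
  have hj'mod : 0 < j' % b := by
    have h1 : 0 < (e * j') % D.q := (D.hI _ hI).1
    rw [hqe, Nat.mul_mod_mul_left] at h1
    exact Nat.pos_of_mul_pos_left h1
  have hWne : (WP b n T D.W).eval (j' : ℝ) ≠ 0 := W_eval_ne hb1 hj'mod
  have hWle : |(WP b n T D.W).eval (j' : ℝ)| ≤ Wb b n T D.W := W_le hb1 hj'lt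
  have hD0R : (0 : ℝ) < D₀ := by exact_mod_cast hD₀
  refine ⟨(D₀ : ℝ) * (|(WP b n T D.W).eval (j' : ℝ)| * (b : ℝ) ^ (2 * κ)), ?_, ?_, ?_⟩
  · have := abs_pos.2 hWne
    positivity
  · rw [mul_assoc]
    refine mul_le_mul_of_nonneg_left ?_ hD0R.le
    have hbQR : (b : ℝ) ≤ Qb := by exact_mod_cast hbQ
    have hW1 := IN_Wb_nonneg 1 n T D.W
    calc |(WP b n T D.W).eval (j' : ℝ)| * (b : ℝ) ^ (2 * κ)
        ≤ Wb b n T D.W * (b : ℝ) ^ (2 * κ) := by gcongr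
      _ = (b : ℝ) ^ (2 * (D.W * win n T) + 2 * κ) * Wb 1 n T D.W := by
          rw [IN_Wb, pow_add]
          ring
      _ ≤ (Qb : ℝ) ^ (2 * (D.W * win n T) + 2 * κ) * Wb 1 n T D.W := by gcongr
  · intro s i hi
    obtain ⟨ε, hε⟩ : ∃ ε : ℤ, |(WP b n T D.W).eval (j' : ℝ)| =
        ε * (WP b n T D.W).eval (j' : ℝ) := by
      rcases abs_choice ((WP b n T D.W).eval (j' : ℝ)) with h | h
      · exact ⟨1, by rw [h]; simp⟩
      · exact ⟨-1, by rw [h]; simp⟩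
    obtain ⟨m, hm⟩ := hco s.1 ((e * j') % D.q) (Nat.mod_lt _ (by omega))
    have hm' : (D₀ : ℝ) * (D.φ s.1 ((e * j') % D.q) : ℝ) = m := by
      have h3 := congrArg (Rat.cast : ℚ → ℝ) hm
      push_cast at h3
      exact h3
    obtain ⟨z, hz⟩ := IN_pm (T := T) D.hwd hj'lt (D.hΛ.sub s.2.2)
    have hz' : (WP b n T D.W).eval (j' : ℝ) * pm b D.wd T s.2 j' = z := hz
    obtain ⟨y, hy⟩ := ebin_int hb1 j' i
    obtain ⟨r, hr⟩ : ∃ r, 2 * κ = r + 2 * i := ⟨2 * κ - 2 * i, by omega⟩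
    refine ⟨m * (b : ℤ) ^ wg D.wd (s.2 : Fin D.N → ℕ) * (ε * z) * ((b : ℤ) ^ r * y), ?_⟩
    have hjq : (((e * j' : ℕ) : ℝ)) / (D.q : ℝ) = (j' : ℝ) / b := by
      rw [hqe]
      push_cast
      have he' : (e : ℝ) ≠ 0 := by
        have : e ≠ 0 := by omega
        exact_mod_cast this
      rw [mul_div_mul_left _ _ he']
    unfold DatW.rowQ
    rw [hjq, rho_lev D he hb1 hqe T j' s, hε, hr, pow_add]
    push_cast
    rw [← hm', ← hz', ← hy]
    ring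

end WX
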