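import Pool.Agent.LibPQ.EB1
import Pool.Agent.LibPQ.EB2
import Pool.Agent.LibWX.W13
import Pool.Agent.LibWX.W11
import Pool.Agent.LibWQ.WQDefs
import Pool.Agent.LibWQ.AB

/-!
# Row RP: every row is a combination of the rows of `Sg` with coefficients well approximated by polynomials (MEDIUM; template LibPQ/RP.lean, simpler: no multiplier; LibWX/W14.lean)

`Γ` from `combW`: `q^(wg s) row s j = ∑_{s' ∈ Sg} ∑_{μ ∈ expo N W} c s' μ * A^μ(j) * rho s' j`, `A^μ(j) = ∏ i, aw q n (wd i) j ^ μ i`, `c s' μ = Γ s s' μ * q^(wg s) / q^(wg s')` (`Γ s s' μ ≠ 0 → s' ∈ Sg` and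
`Adms (wd i)` for `μ i ≠ 0`).  So `rowQ n s i j = ∑_{s'} F s' j * rho n s' j`, `F s' j = (∑_μ c s' μ * A^μ j) * ebin i (j / q)`.  For `m ≥ 1` let `G m μ` be the polynomial of `Av_polyW` with `m₀ = W`, `r = 1`
(`1 * n`: `one_mul`; `G = 0` if `c s' μ = 0`), `P m s' = (∑_μ C (c s' μ) * G m μ) * pe`, `pe` = the polynomial of `ebin_poly i`, `natDegree (P m s') < m + i`, `P 0 = 0`; pieces as in LibPQ/RP.lean
(`A s' j m` = `P m s'` at `j` for `m ≤ M`, `F s' j` for `m = M + 1`; the piece `m` is `A (m + 1) - A m`, `RP_tele`; for `m < M` it is a polynomial of degree `< m + 1 + i ≤ m + κ`).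
Sizes at the nodes (`j < q n`, `0 ≤ j / q ≤ n`, `|ebin i (j / q)| ≤ 2^(n + κ)` by `ebin_le`): `|A s' j m - F s' j| ≤ Gs * (C₀ + K) * (M + 2)^ec * 2^(n + κ) * (1/3)^m` for all `m ≤ M + 1`, where `∑_μ |c s' μ| ≤ Gs`,
`C₀` from `Av_leW` (`m = 0`), `K` from `Av_polyW` (`(m + 1)^ec ≤ (M + 2)^ec`, `1 / (2 * 1 + 1) = 1/3`).  The piece `m` is at most the sum of two errors.  `Kx = 1 + 2 * Gs * (C₀ + K)`.
-/

namespace WX

open Finset Polynomial CM68

private theorem RP_abs_sum {ι : Type*} (s : Finset ι) (c f : ι → ℝ) {A X : ℝ}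
    (hX : 0 ≤ X) (hc : ∑ i ∈ s, |c i| ≤ A) (hf : ∀ i ∈ s, |f i| ≤ X) :
    |∑ i ∈ s, c i * f i| ≤ A * X := by
  refine (Finset.abs_sum_le_sum_abs _ _).trans ?_
  refine (Finset.sum_le_sum fun i hi => ?_).trans
    ((Finset.sum_mul s (fun i => |c i|) X).symm.le.trans (mul_le_mul_of_nonneg_right hc hX))
  rw [abs_mul]
  exact mul_le_mul_of_nonneg_left (hf i hi) (abs_nonneg _)

private theorem RP_node {D : DatW} {n j : ℕ} (hj : j ∈ D.Nd n) :
    j < D.q * n ∧ j % D.q ∈ D.I ∧ 0 ≤ (j : ℝ) / D.q ∧ (j : ℝ) / D.q ≤ n := by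
  have hq := D.hq
  have hq0 : (0 : ℝ) < D.q := by
    have : 0 < D.q := by omega
    exact_mod_cast this
  have hj0 := Finset.mem_filter.1
    (show j ∈ (range (D.q * n)).filter fun j => j % D.q ∈ D.I from hj)
  have hj' := Finset.mem_range.1 hj0.1
  refine ⟨hj', hj0.2, by positivity, ?_⟩
  rw [div_le_iff₀ hq0]
  have h1 : j ≤ n * D.q := by
    rw [Nat.mul_comm n]
    omega
  exact_mod_cast h1

private theorem RP_tele (M : ℕ) (A : ℕ → ℝ) (h0 : A 0 = 0) :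
    ∑ m : Fin (M + 1), (A ((m : ℕ) + 1) - A (m : ℕ)) = A (M + 1) := by
  rw [Fin.sum_univ_eq_sum_range (fun m => A (m + 1) - A m), Finset.sum_range_sub, h0, sub_zero]

theorem rowQ_repW (D : DatW) : ∃ (Kx : ℝ) (ec : ℕ), 1 ≤ Kx ∧
    ∀ n κ M : ℕ, 1 ≤ n → 1 ≤ M → ∀ (s : D.Ix) (i : ℕ), i < κ →
    ∃ h : D.Sg → Fin (M + 1) → ℕ → ℝ,
      (∀ j ∈ D.Nd n, D.rowQ n s i j = ∑ s' : D.Sg, (∑ m, h s' m j) * D.rho n s'.1 j) ∧
      (∀ s' (m : Fin (M + 1)), (m : ℕ) < M → ∃ p : ℝ[X],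
        p.natDegree < (m : ℕ) + κ ∧ ∀ j : ℕ, h s' m j = p.eval (j : ℝ)) ∧
      ∀ s' (m : Fin (M + 1)), ∀ j ∈ D.Nd n, |h s' m j| ≤
        Kx * (((M : ℝ) + 2) ^ ec * 2 ^ (n + κ)) * (1 / 3) ^ (m : ℕ) := by
  classical
  obtain ⟨Γ, hΓ, hcomb⟩ := combW D
  have hqn := D.hq
  have hqn1 : 1 ≤ D.q := by omega
  obtain ⟨C0, hC01, hCf⟩ := Av_leW (q := D.q) hqn1 D.wd D.W
  obtain ⟨K, ec, hK1, hK⟩ := Av_polyW (q := D.q) hqn1 D.hwd D.W
  have hC0 : 0 ≤ C0 := by linarith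
  have hK0' : 0 ≤ K := by linarith
  have hq1 : (1 : ℝ) ≤ D.q := by exact_mod_cast hqn1
  have hq0 : (0 : ℝ) < D.q := by linarith
  obtain ⟨Gs, hGs⟩ : ∃ Gs : ℝ, Gs = ∑ s : D.Ix, ∑ s' : D.Ix, ∑ μ ∈ expo D.N D.W,
    |Γ s s' μ| * (D.q : ℝ) ^ wg D.wd (s.2 : Fin D.N → ℕ) := ⟨_, rfl⟩
  have hGs' : ∀ s s' : D.Ix, ∑ μ ∈ expo D.N D.W,
      |Γ s s' μ| * (D.q : ℝ) ^ wg D.wd (s.2 : Fin D.N → ℕ) ≤ Gs := by
    intro s s'
    rw [hGs]
    refine (Finset.single_le_sum (f := fun s' : D.Ix => ∑ μ ∈ expo D.N D.W,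
      |Γ s s' μ| * (D.q : ℝ) ^ wg D.wd (s.2 : Fin D.N → ℕ))
      (fun _ _ => Finset.sum_nonneg fun _ _ => by positivity) (mem_univ s')).trans ?_
    exact Finset.single_le_sum (f := fun s : D.Ix => ∑ s' : D.Ix, ∑ μ ∈ expo D.N D.W,
      |Γ s s' μ| * (D.q : ℝ) ^ wg D.wd (s.2 : Fin D.N → ℕ)) (fun _ _ =>
        Finset.sum_nonneg fun _ _ => Finset.sum_nonneg fun _ _ => by positivity) (mem_univ s)
  have hGs0 : 0 ≤ Gs := by
    rw [hGs]
    exact Finset.sum_nonneg fun _ _ => Finset.sum_nonneg fun _ _ =>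
      Finset.sum_nonneg fun _ _ => by positivity
  obtain ⟨K0, hK0⟩ : ∃ K0 : ℝ, K0 = Gs * (C0 + K) := ⟨_, rfl⟩
  have hK00 : 0 ≤ K0 := by
    rw [hK0]
    positivity
  refine ⟨1 + 2 * K0, ec, by linarith, ?_⟩
  intro n κ M hn hM s i hi
  obtain ⟨c, hc⟩ : ∃ c : D.Ix → (Fin D.N → ℕ) → ℝ,
    c = fun (s' : D.Ix) (μ : Fin D.N → ℕ) => Γ s s' μ *
      (D.q : ℝ) ^ wg D.wd (s.2 : Fin D.N → ℕ) / (D.q : ℝ) ^ wg D.wd (s'.2 : Fin D.N → ℕ) :=
    ⟨_, rfl⟩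
  have hcs : ∀ s' : D.Ix, ∑ μ ∈ expo D.N D.W, |c s' μ| ≤ Gs := by
    intro s'
    refine (Finset.sum_le_sum fun μ _ => ?_).trans (hGs' s s')
    rw [hc]
    have h1 : (1 : ℝ) ≤ (D.q : ℝ) ^ wg D.wd (s'.2 : Fin D.N → ℕ) := one_le_pow₀ hq1
    show |Γ s s' μ * (D.q : ℝ) ^ wg D.wd (s.2 : Fin D.N → ℕ) /
      (D.q : ℝ) ^ wg D.wd (s'.2 : Fin D.N → ℕ)| ≤ _
    rw [abs_div, abs_mul,
      abs_of_nonneg (by positivity : (0 : ℝ) ≤ (D.q : ℝ) ^ wg D.wd (s.2 : Fin D.N → ℕ)),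
      abs_of_nonneg (by positivity : (0 : ℝ) ≤ (D.q : ℝ) ^ wg D.wd (s'.2 : Fin D.N → ℕ))]
    exact div_le_self (by positivity) h1
  have hcne : ∀ (s' : D.Ix) (μ : Fin D.N → ℕ), c s' μ ≠ 0 → Γ s s' μ ≠ 0 := by
    intro s' μ h h0
    apply h
    rw [hc]
    show Γ s s' μ * (D.q : ℝ) ^ wg D.wd (s.2 : Fin D.N → ℕ) /
      (D.q : ℝ) ^ wg D.wd (s'.2 : Fin D.N → ℕ) = 0
    rw [h0, zero_mul, zero_div]
  obtain ⟨Af, hAf⟩ : ∃ Af : (Fin D.N → ℕ) → ℕ → ℝ,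
    Af = fun (μ : Fin D.N → ℕ) (j : ℕ) => ∏ i, aw D.q n (D.wd i) j ^ μ i := ⟨_, rfl⟩
  obtain ⟨pe, hpe, hpe'⟩ := ebin_poly i (q := D.q) (by omega)
  have heb : ∀ j ∈ D.Nd n, |ebin i ((j : ℝ) / D.q)| ≤ 2 ^ (n + κ) := by
    intro j hj
    obtain ⟨-, -, h3, h4⟩ := RP_node hj
    refine (ebin_le h3 h4).trans ?_
    exact pow_le_pow_right₀ (by norm_num) (by omega)
  -- the approximating polynomials
  have hP : ∀ (m : ℕ) (μ : Fin D.N → ℕ), ∃ G : ℝ[X], 1 ≤ m → μ ∈ expo D.N D.W →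
      (∀ i, μ i ≠ 0 → Adms (D.wd i)) →
      G.natDegree < m ∧
      ∀ j ∈ D.Nd n, |Af μ j - G.eval (j : ℝ)| ≤ K * ((m : ℝ) + 1) ^ ec * (1 / 3) ^ m := by
    intro m μ
    by_cases hm : 1 ≤ m
    · by_cases hμ : μ ∈ expo D.N D.W
      · by_cases hadm : ∀ i, μ i ≠ 0 → Adms (D.wd i)
        · obtain ⟨G, h1, h2⟩ := hK n 1 m hn le_rfl hm μ (mem_expo.1 hμ) hadm
          refine ⟨G, fun _ _ _ => ⟨h1, ?_⟩⟩
          intro j hj
          have h3 := h2 j (RP_node hj).1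
          rw [one_mul] at h3
          have h4 : (1 / (2 * ((1 : ℕ) : ℝ) + 1)) = (1 / 3 : ℝ) := by norm_num
          rw [h4] at h3
          rw [hAf]
          exact h3
        · exact ⟨0, fun _ _ h => absurd h hadm⟩
      · exact ⟨0, fun _ h => absurd h hμ⟩
    · exact ⟨0, fun h => absurd h hm⟩
  choose G₀ hGp₀ using hP
  -- zero if the coefficient is zero
  obtain ⟨G, hG⟩ : ∃ G : D.Ix → ℕ → (Fin D.N → ℕ) → ℝ[X],
    G = fun (s' : D.Ix) (m : ℕ) (μ : Fin D.N → ℕ) => if c s' μ = 0 then 0 else G₀ m μ := ⟨_, rfl⟩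
  have hGdeg : ∀ s' m μ, 1 ≤ m → μ ∈ expo D.N D.W → (G s' m μ).natDegree ≤ m - 1 := by
    intro s' m μ hm hμ
    rw [hG]
    show ((if c s' μ = 0 then 0 else G₀ m μ) : ℝ[X]).natDegree ≤ m - 1
    split_ifs with h0
    · rw [natDegree_zero]
      omega
    · have h1 := (hGp₀ m μ hm hμ (hΓ s s' μ (hcne s' μ h0)).2).1
      omega
  have hGerr : ∀ s' m μ, 1 ≤ m → μ ∈ expo D.N D.W → ∀ j ∈ D.Nd n,
      |c s' μ * (Af μ j - (G s' m μ).eval (j : ℝ))| ≤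
        |c s' μ| * (K * ((m : ℝ) + 1) ^ ec * (1 / 3) ^ m) := by
    intro s' m μ hm hμ j hj
    rw [hG]
    show |c s' μ * (Af μ j - ((if c s' μ = 0 then 0 else G₀ m μ) : ℝ[X]).eval (j : ℝ))| ≤ _
    rw [abs_mul]
    by_cases h0 : c s' μ = 0
    · rw [h0, abs_zero, zero_mul, zero_mul]
    · rw [if_neg h0]
      exact mul_le_mul_of_nonneg_left
        ((hGp₀ m μ hm hμ (hΓ s s' μ (hcne s' μ h0)).2).2 j hj) (abs_nonneg _)
  obtain ⟨Pm, hPm⟩ : ∃ Pm : ℕ → D.Ix → ℝ[X], Pm = fun (m : ℕ) (s' : D.Ix) =>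
    if m = 0 then 0 else (∑ μ ∈ expo D.N D.W, C (c s' μ) * G s' m μ) * pe := ⟨_, rfl⟩
  obtain ⟨F, hF⟩ : ∃ F : D.Ix → ℕ → ℝ, F = fun (s' : D.Ix) (j : ℕ) =>
    (∑ μ ∈ expo D.N D.W, c s' μ * Af μ j) * ebin i ((j : ℝ) / D.q) := ⟨_, rfl⟩
  obtain ⟨A, hA⟩ : ∃ A : D.Ix → ℕ → ℕ → ℝ, A = fun (s' : D.Ix) (j m : ℕ) =>
    if m ≤ M then (Pm m s').eval (j : ℝ) else F s' j := ⟨_, rfl⟩
  have hA0 : ∀ s' j, A s' j 0 = 0 := by
    intro s' j
    rw [hA, hPm]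
    simp
  have hAM : ∀ s' j, A s' j (M + 1) = F s' j := by
    intro s' j
    rw [hA]
    simp
  obtain ⟨Z, hZ⟩ : ∃ Z : ℝ, Z = ((M : ℝ) + 2) ^ ec * 2 ^ (n + κ) := ⟨_, rfl⟩
  have hM2 : (1 : ℝ) ≤ ((M : ℝ) + 2) ^ ec := by
    refine one_le_pow₀ ?_
    have : (0 : ℝ) ≤ M := Nat.cast_nonneg _
    linarith
  have hZ0 : 0 ≤ Z := by
    rw [hZ]
    positivity
  -- the distance between the polynomials and the function
  have herr : ∀ s' : D.Ix, ∀ j ∈ D.Nd n, ∀ m : ℕ, |A s' j m - F s' j| ≤ K0 * Z * (1 / 3) ^ m := by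
    intro s' j hj m
    have hKZ : 0 ≤ K0 * Z * (1 / 3) ^ m := by positivity
    by_cases hmM : m ≤ M
    · have h1 : A s' j m = (Pm m s').eval (j : ℝ) := by
        rw [hA]
        exact if_pos hmM
      rw [h1]
      rcases Nat.eq_zero_or_pos m with hm0 | hm1
      · subst hm0
        have h2 : (Pm 0 s').eval (j : ℝ) = 0 := by
          rw [hPm]
          simp
        rw [h2, zero_sub, abs_neg, pow_zero, mul_one, hF]
        show |(∑ μ ∈ expo D.N D.W, c s' μ * Af μ j) * ebin i ((j : ℝ) / D.q)| ≤ _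
        rw [abs_mul]
        have h3 : |∑ μ ∈ expo D.N D.W, c s' μ * Af μ j| ≤ Gs * C0 := by
          refine (Finset.abs_sum_le_sum_abs _ _).trans ?_
          have h4 : ∀ μ ∈ expo D.N D.W, |c s' μ * Af μ j| ≤ |c s' μ| * C0 := by
            intro μ hμ
            rw [abs_mul]
            by_cases h0 : c s' μ = 0
            · rw [h0, abs_zero, zero_mul, zero_mul]
            · refine mul_le_mul_of_nonneg_left ?_ (abs_nonneg _)
              rw [hAf]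
              exact hCf n μ (mem_expo.1 hμ) (hΓ s s' μ (hcne s' μ h0)).2 j
          refine (Finset.sum_le_sum h4).trans ?_
          rw [← Finset.sum_mul]
          exact mul_le_mul_of_nonneg_right (hcs s') hC0
        refine (mul_le_mul h3 (heb j hj) (abs_nonneg _) (by positivity)).trans ?_
        rw [hK0, hZ]
        calc Gs * C0 * 2 ^ (n + κ) ≤ Gs * C0 * (((M : ℝ) + 2) ^ ec * 2 ^ (n + κ)) := by
              refine mul_le_mul_of_nonneg_left ?_ (by positivity)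
              exact le_mul_of_one_le_left (by positivity) hM2
          _ ≤ Gs * (C0 + K) * (((M : ℝ) + 2) ^ ec * 2 ^ (n + κ)) := by
              refine mul_le_mul_of_nonneg_right ?_ (by positivity)
              refine mul_le_mul_of_nonneg_left ?_ hGs0
              linarith
      · have h2 : (Pm m s').eval (j : ℝ) =
            (∑ μ ∈ expo D.N D.W, c s' μ * (G s' m μ).eval (j : ℝ)) *
              ebin i ((j : ℝ) / D.q) := by
          rw [hPm]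
          show ((if m = 0 then 0 else (∑ μ ∈ expo D.N D.W, C (c s' μ) * G s' m μ) * pe) :
            ℝ[X]).eval (j : ℝ) = _
          rw [if_neg (by omega), eval_mul, hpe', eval_finsetSum]
          congr 1
          refine Finset.sum_congr rfl fun μ _ => ?_
          rw [eval_mul, eval_C]
        have h3 : (Pm m s').eval (j : ℝ) - F s' j = -((∑ μ ∈ expo D.N D.W, c s' μ *
            (Af μ j - (G s' m μ).eval (j : ℝ))) * ebin i ((j : ℝ) / D.q)) := by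
          rw [h2, hF]
          show (∑ μ ∈ expo D.N D.W, c s' μ * (G s' m μ).eval (j : ℝ)) *
            ebin i ((j : ℝ) / D.q) -
            (∑ μ ∈ expo D.N D.W, c s' μ * Af μ j) * ebin i ((j : ℝ) / D.q) = _
          rw [← sub_mul, ← Finset.sum_sub_distrib, ← neg_mul, ← Finset.sum_neg_distrib]
          congr 1
          refine Finset.sum_congr rfl fun μ _ => ?_
          ring
        rw [h3, abs_neg, abs_mul]
        have h4 : |∑ μ ∈ expo D.N D.W, c s' μ * (Af μ j - (G s' m μ).eval (j : ℝ))| ≤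
            Gs * (K * ((m : ℝ) + 1) ^ ec * (1 / 3) ^ m) := by
          refine (Finset.abs_sum_le_sum_abs _ _).trans ?_
          refine (Finset.sum_le_sum fun μ hμ => hGerr s' m μ hm1 hμ j hj).trans ?_
          rw [← Finset.sum_mul]
          exact mul_le_mul_of_nonneg_right (hcs s') (by positivity)
        refine (mul_le_mul h4 (heb j hj) (abs_nonneg _) (by positivity)).trans ?_
        rw [hK0, hZ]
        have hmM' : (m : ℝ) ≤ M := by exact_mod_cast hmM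
        have h5 : ((m : ℝ) + 1) ^ ec ≤ ((M : ℝ) + 2) ^ ec :=
          pow_le_pow_left₀ (by positivity) (by linarith) _
        calc Gs * (K * ((m : ℝ) + 1) ^ ec * (1 / 3) ^ m) * 2 ^ (n + κ)
            = Gs * K * (2 ^ (n + κ) * (1 / 3) ^ m) * ((m : ℝ) + 1) ^ ec := by ring
          _ ≤ Gs * K * (2 ^ (n + κ) * (1 / 3) ^ m) * ((M : ℝ) + 2) ^ ec :=
            mul_le_mul_of_nonneg_left h5 (by positivity)
          _ = Gs * K * (((M : ℝ) + 2) ^ ec * 2 ^ (n + κ)) * (1 / 3) ^ m := by ring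
          _ ≤ Gs * (C0 + K) * (((M : ℝ) + 2) ^ ec * 2 ^ (n + κ)) * (1 / 3) ^ m := by
            refine mul_le_mul_of_nonneg_right ?_ (by positivity)
            refine mul_le_mul_of_nonneg_right ?_ (by positivity)
            refine mul_le_mul_of_nonneg_left ?_ hGs0
            linarith
    · have h1 : A s' j m = F s' j := by
        rw [hA]
        exact if_neg hmM
      rw [h1, sub_self, abs_zero]
      exact hKZ
  refine ⟨fun s' m j => A s'.1 j ((m : ℕ) + 1) - A s'.1 j (m : ℕ), ?_, ?_, ?_⟩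
  · intro j hj
    have h1 : D.rowQ n s i j = ∑ s' : D.Ix, F s' j * D.rho n s' j := by
      unfold DatW.rowQ DatW.rho
      rw [hcomb n s j (RP_node hj).2.1, hF, Finset.mul_sum, Finset.sum_mul]
      refine Finset.sum_congr rfl fun s' _ => ?_
      show _ = (∑ μ ∈ expo D.N D.W, c s' μ * Af μ j) * ebin i ((j : ℝ) / D.q) * _
      rw [Finset.mul_sum, Finset.sum_mul, Finset.sum_mul, Finset.sum_mul, hc, hAf]
      refine Finset.sum_congr rfl fun μ _ => ?_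
      have hqs : (D.q : ℝ) ^ wg D.wd (s'.2 : Fin D.N → ℕ) ≠ 0 := by positivity
      show _ = Γ s s' μ * (D.q : ℝ) ^ wg D.wd (s.2 : Fin D.N → ℕ) /
        (D.q : ℝ) ^ wg D.wd (s'.2 : Fin D.N → ℕ) * _ * _ * _
      field_simp
    have h2 : ∀ s' : D.Ix, s' ∉ D.Sg → F s' j * D.rho n s' j = 0 := by
      intro s' hs'
      have h3 : ∀ μ, Γ s s' μ = 0 := by
        intro μ
        by_contra h
        exact hs' (hΓ s s' μ h).1
      rw [hF, hc]
      show (∑ μ ∈ expo D.N D.W, Γ s s' μ * (D.q : ℝ) ^ wg D.wd (s.2 : Fin D.N → ℕ) /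
        (D.q : ℝ) ^ wg D.wd (s'.2 : Fin D.N → ℕ) * Af μ j) * ebin i ((j : ℝ) / D.q) * _ = 0
      rw [Finset.sum_eq_zero fun μ _ => by rw [h3 μ]; ring]
      ring
    rw [h1, ← Finset.sum_subset (Finset.subset_univ D.Sg) fun s' _ hs' => h2 s' hs',
      ← Finset.sum_coe_sort D.Sg fun s' => F s' j * D.rho n s' j]
    refine Finset.sum_congr rfl fun s' _ => ?_
    rw [RP_tele M (fun m => A s'.1 j m) (hA0 s'.1 j), hAM]
  · intro s' m hm
    refine ⟨Pm ((m : ℕ) + 1) s'.1 - Pm (m : ℕ) s'.1, ?_, ?_⟩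
    · have hdeg : ∀ k : ℕ, k ≤ (m : ℕ) + 1 → (Pm k s'.1).natDegree < (m : ℕ) + κ := by
        intro k hk
        rw [hPm]
        show ((if k = 0 then 0 else (∑ μ ∈ expo D.N D.W, C (c s'.1 μ) * G s'.1 k μ) * pe) :
          ℝ[X]).natDegree < _
        split_ifs with hk0
        · rw [natDegree_zero]
          omega
        · have h1 : (∑ μ ∈ expo D.N D.W, C (c s'.1 μ) * G s'.1 k μ).natDegree ≤ k - 1 := by
            refine natDegree_sum_le_of_forall_le _ _ fun μ hμ => ?_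
            have h2 := hGdeg s'.1 k μ (by omega) hμ
            exact (natDegree_C_mul_le _ _).trans h2
          have h3 := (natDegree_mul_le (p := ∑ μ ∈ expo D.N D.W, C (c s'.1 μ) * G s'.1 k μ)
            (q := pe))
          omega
      refine lt_of_le_of_lt (natDegree_sub_le _ _) (max_lt (hdeg _ le_rfl) (hdeg _ (by omega)))
    · intro j
      show A s'.1 j ((m : ℕ) + 1) - A s'.1 j (m : ℕ) = _
      rw [eval_sub, hA]
      show (if (m : ℕ) + 1 ≤ M then _ else _) - (if (m : ℕ) ≤ M then _ else _) = _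
      rw [if_pos (by omega), if_pos (by omega)]
  · intro s' m j hj
    show |A s'.1 j ((m : ℕ) + 1) - A s'.1 j (m : ℕ)| ≤ _
    have h1 := herr s'.1 j hj ((m : ℕ) + 1)
    have h2 := herr s'.1 j hj (m : ℕ)
    have h3 : A s'.1 j ((m : ℕ) + 1) - A s'.1 j (m : ℕ) =
        (A s'.1 j ((m : ℕ) + 1) - F s'.1 j) - (A s'.1 j (m : ℕ) - F s'.1 j) := by ring
    rw [h3, ← hZ]
    refine (abs_sub _ _).trans ?_
    have h4 : K0 * Z * (1 / 3) ^ ((m : ℕ) + 1) ≤ K0 * Z * (1 / 3) ^ (m : ℕ) := by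
      refine mul_le_mul_of_nonneg_left ?_ (by positivity)
      exact pow_le_pow_of_le_one (by norm_num) (by norm_num) (Nat.le_succ _)
    have h5 : (1 + 2 * K0) * Z * (1 / 3) ^ (m : ℕ) = Z * (1 / 3) ^ (m : ℕ) +
        (K0 * Z * (1 / 3) ^ (m : ℕ) + K0 * Z * (1 / 3) ^ (m : ℕ)) := by ring
    have h6 : 0 ≤ Z * (1 / 3) ^ (m : ℕ) := by positivity
    rw [h5]
    linarith

end WX
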