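import Pool.Agent.LibCM68.Det
import Pool.Agent.LibPQ.DET3
import Pool.Agent.LibWQ.IN
import Pool.Agent.LibWQ.ID
import Pool.Agent.LibWQ.RP

/-!
# Row KN: the inequality for one `n` (MEDIUM; template LibPQ/KN.lean)

`ι = Sh × Fin κ`, `R = card ι`.  `rowQ_indW` and `exists_minor` give nodes `g : ι → D.Nd n` with nonzero determinant.  As `kn_low` in LibPQ/KN.lean with the factors `X l` of `col_int` (`T = n`):
`∏ X l * det` is a nonzero integer, so `1 ≤ ∏ X l * |det| ≤ (D₀ * Qb^(2 (W win) + 2 κ) * Wb 1 n n W)^R * |det|`.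
Upper bound: `hKx` with `M = R` for every `b : ι`, `detQ` with `S = D.Sg`, `D₁ = κ`, `A = Kx * ((R + 2)^ec * 2^(n + κ))`, `θ = 1 / 3` (condition `hG`: `R * κ ≤ R * (κ + W * win n n)`).
Last step: `(a * Y)^R * (R! * (S (R + 1) (A P))^R θ^G) = a^R * (R! * (S (R + 1) (A' P))^R θ^G)`, `Y = Wb 1 n n W`, `A' = Kx * (Y * .. )` (`mul_pow`), and `1 ≤ win^W`.
-/

namespace WX

open Finset Polynomial CM68

private theorem kn_lowW {ι : Type*} [Fintype ι] [DecidableEq ι] (N : Matrix ι ι ℝ) {E : ℝ}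
    (hdet : N.det ≠ 0)
    (hint : ∀ l, ∃ X : ℝ, 0 < X ∧ X ≤ E ∧ ∀ i, ∃ z : ℤ, X * N i l = z) :
    1 ≤ E ^ Fintype.card ι * |N.det| := by
  choose X hX0 hXE hint using hint
  choose Z hZ using hint
  have hdetZ : ((Matrix.of fun i l => Z l i).det : ℝ) = (∏ l, X l) * N.det := by
    rw [← Matrix.det_mul_row]
    have h1 := RingHom.map_det (Int.castRingHom ℝ) (Matrix.of fun i l => Z l i)
    simp only [Int.coe_castRingHom] at h1
    rw [h1]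
    congr 1
    ext i l
    simp only [RingHom.mapMatrix_apply, Matrix.map_apply, Matrix.of_apply, Int.coe_castRingHom]
    exact (hZ l i).symm
  have hprod : 0 < ∏ l, X l := prod_pos fun l _ => hX0 l
  have hZ1 : (1 : ℝ) ≤ |((Matrix.of fun i l => Z l i).det : ℝ)| := by
    have h1 : (Matrix.of fun i l => Z l i).det ≠ 0 := by
      intro h0
      rw [h0, Int.cast_zero] at hdetZ
      exact (mul_ne_zero hprod.ne' hdet) hdetZ.symm
    have h2 := Int.one_le_abs h1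
    exact_mod_cast h2
  rw [hdetZ, abs_mul, abs_of_pos hprod] at hZ1
  refine hZ1.trans (mul_le_mul_of_nonneg_right ?_ (abs_nonneg _))
  calc ∏ l, X l ≤ ∏ _l : ι, E := prod_le_prod (fun l _ => (hX0 l).le) fun l _ => hXE l
    _ = _ := by rw [prod_const, card_univ]

theorem coreQW_n (D : DatW) (Sh : Finset D.Ix) (hdis : ∀ s ∈ Sh, s ∉ D.Sg)
    {Qb n D₀ κ G ec : ℕ} {P Kx : ℝ}
    (hn : 1 ≤ n) (hκ : 1 ≤ κ) (hD₀ : 1 ≤ D₀)
    (hco : ∀ h, ∀ x < D.q, ∃ m : ℤ, (D₀ : ℚ) * D.φ h x = m)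
    (hcol : ∀ x ∈ D.I, D.Col Qb x) (hnL : D.L < n)
    (hdeg : D.Sp * (D.L * (κ + D.W * D.L)) ≤ D.I.card * (n - D.L))
    (hP : 0 ≤ P) (hrho : ∀ s : D.Ix, ∀ j ∈ D.Nd n, |D.rho n s j| ≤ P) (hK1 : 1 ≤ Kx)
    (hKx : ∀ n κ M : ℕ, 1 ≤ n → 1 ≤ M → ∀ (s : D.Ix) (i : ℕ), i < κ →
      ∃ h : D.Sg → Fin (M + 1) → ℕ → ℝ,
      (∀ j ∈ D.Nd n, D.rowQ n s i j = ∑ s' : D.Sg, (∑ m, h s' m j) * D.rho n s'.1 j) ∧
      (∀ s' (m : Fin (M + 1)), (m : ℕ) < M → ∃ p : ℝ[X],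
        p.natDegree < (m : ℕ) + κ ∧ ∀ j : ℕ, h s' m j = p.eval (j : ℝ)) ∧
      ∀ s' (m : Fin (M + 1)), ∀ j ∈ D.Nd n, |h s' m j| ≤
        Kx * (((M : ℝ) + 2) ^ ec * 2 ^ (n + κ)) * (1 / 3) ^ (m : ℕ))
    {R : ℕ} (hR : R = Sh.card * κ) (hR1 : 1 ≤ R)
    (hG : 2 * D.Sg.card * (G + R * (κ + D.W * win n n)) ≤ R ^ 2) :
    1 ≤ ((D₀ : ℝ) * (Qb : ℝ) ^ (2 * (D.W * win n n) + 2 * κ)) ^ R *
      ((R.factorial : ℝ) * ((D.Sg.card : ℝ) * (R + 1) *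
        (Kx * (Wb 1 n n D.W * (win n n : ℝ) ^ (D.W + 0) * ((R : ℝ) + 2) ^ ec *
          2 ^ (n + κ)) * P)) ^ R * (1 / 3) ^ G) := by
  classical
  have hcard : Fintype.card (Sh × Fin κ) = R := by
    rw [Fintype.card_prod, Fintype.card_fin, Fintype.card_coe, hR]
  have hli := rowQ_indW D Sh hdis (n := n) (T := n) (κ := κ) hκ hnL hdeg
  obtain ⟨g, -, hdet⟩ := exists_minor
    (fun (b : Sh × Fin κ) (j : D.Nd n) => D.rowQ n b.1.1 b.2 (j : ℕ)) hli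
  have hlow := kn_lowW (Matrix.of fun (i : Sh × Fin κ) l =>
    (fun (b : Sh × Fin κ) (j : D.Nd n) => D.rowQ n b.1.1 b.2 (j : ℕ)) i (g l))
    (E := (D₀ : ℝ) * (Qb : ℝ) ^ (2 * (D.W * win n n) + 2 * κ) * Wb 1 n n D.W) hdet (fun l => by
      obtain ⟨X, h1, h2, h3⟩ := col_int D (κ := κ) (T := n) hD₀ hco hcol (g l).2
      exact ⟨X, h1, h2, fun i => h3 i.1.1 i.2 i.2.2.le⟩)
  rw [hcard] at hlow
  have hWb : 0 ≤ Wb 1 n n D.W := by
    unfold Wb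
    positivity
  have hKx0 : 0 ≤ Kx := by linarith
  obtain ⟨A, hA⟩ : ∃ A : ℝ, A = Kx * (((R : ℝ) + 2) ^ ec * 2 ^ (n + κ)) := ⟨_, rfl⟩
  have hA0 : 0 ≤ A := by
    rw [hA]
    positivity
  have hrep := fun b : Sh × Fin κ => hKx n κ R hn hR1 b.1.1 b.2 b.2.2
  choose h hh1 hh2 hh3 using hrep
  have key := detQ (ι := Sh × Fin κ) (S := D.Sg) (M := R) (D₁ := κ) (G := G)
    (A := A) (P := P) (θ := 1 / 3) (by rw [hcard]; exact hR1) (by rw [hcard])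
    (fun l => ((g l : ℕ) : ℝ)) (fun b s m l => h b s m (g l)) (fun s l => D.rho n s.1 (g l))
    hA0 hP (by norm_num) (by norm_num) (fun s l => hrho s.1 _ (g l).2)
    (fun b s m l => by rw [hA]; exact hh3 b s m _ (g l).2)
    (fun b s m hm => by
      obtain ⟨p, hp1, hp2⟩ := hh2 b s m hm
      exact ⟨p, hp1, fun l => hp2 _⟩)
    (by
      rw [hcard, Fintype.card_coe]
      refine le_trans ?_ hG
      gcongr
      exact Nat.le_add_right _ _)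
  rw [hcard, Fintype.card_coe] at key
  have hdeteq : |(Matrix.of fun (i : Sh × Fin κ) l =>
      (fun (b : Sh × Fin κ) (j : D.Nd n) => D.rowQ n b.1.1 b.2 (j : ℕ)) i (g l)).det| =
      |(Matrix.of fun (ω : Sh × Fin κ) j => ∑ s : D.Sg, (∑ m, h ω s m (g j)) *
        D.rho n s.1 (g j)).det| := by
    congr 2
    ext b l
    exact hh1 b _ (g l).2
  rw [hdeteq] at hlow
  have hwin : (1 : ℝ) ≤ (win n n : ℝ) ^ (D.W + 0) := by
    apply one_le_pow₀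
    have : 1 ≤ win n n := by
      unfold win
      omega
    exact_mod_cast this
  refine hlow.trans ((mul_le_mul_of_nonneg_left key (by positivity)).trans ?_)
  have e1 : ((D₀ : ℝ) * (Qb : ℝ) ^ (2 * (D.W * win n n) + 2 * κ) * Wb 1 n n D.W) ^ R *
      ((R.factorial : ℝ) * ((D.Sg.card : ℝ) * (R + 1) * (A * P)) ^ R * (1 / 3) ^ G) =
      ((D₀ : ℝ) * (Qb : ℝ) ^ (2 * (D.W * win n n) + 2 * κ)) ^ R *
      ((R.factorial : ℝ) * ((D.Sg.card : ℝ) * (R + 1) * (A * Wb 1 n n D.W * P)) ^ R *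
        (1 / 3) ^ G) := by
    rw [mul_pow _ (Wb 1 n n D.W)]
    have : ((D.Sg.card : ℝ) * (R + 1) * (A * Wb 1 n n D.W * P)) ^ R =
        (Wb 1 n n D.W) ^ R * ((D.Sg.card : ℝ) * (R + 1) * (A * P)) ^ R := by
      rw [← mul_pow]
      congr 1
      ring
    rw [this]
    ring
  rw [e1]
  have e2 : A * Wb 1 n n D.W ≤ Kx * (Wb 1 n n D.W * (win n n : ℝ) ^ (D.W + 0) *
      ((R : ℝ) + 2) ^ ec * 2 ^ (n + κ)) := by
    rw [hA]
    have e3 : Kx * (Wb 1 n n D.W * (win n n : ℝ) ^ (D.W + 0) *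
        ((R : ℝ) + 2) ^ ec * 2 ^ (n + κ)) =
        (Kx * (((R : ℝ) + 2) ^ ec * 2 ^ (n + κ)) * Wb 1 n n D.W) *
          (win n n : ℝ) ^ (D.W + 0) := by ring
    rw [e3]
    exact le_mul_of_one_le_right (by positivity) hwin
  have e4 : 0 ≤ A * Wb 1 n n D.W := mul_nonneg hA0 hWb
  gcongr

end WX
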