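import Pool.Agent.LibCM68.CORE
import Pool.Agent.LibPQ.LM
import Pool.Agent.LibWX.W12
import Pool.Agent.LibWQ.KN

/-!
# Row KC: the contradiction (MEDIUM, assembly; template LibPQ/KC.lean, simpler)

`Sh = univ \ D.Sg` (`card = card Ix - Sg.card ≥ F₂`; `Finset.card_sdiff`), restricted to a subset of exactly `F₂` elements (`Finset.exists_subset_card_eq`) or take `F = Sh.card` in `lim_Q`.
`rowQ_repW` gives `Kx`, `ec`.  `D₀`, `hco`, `Bd`: as in LibPQ/KC.lean; `|rho n s j| ≤ q^(wg s) * Bd * win^W ≤ Cρ * win^W` (`row_leW`, LibWX/W12.lean), `Cρ = (1 + ∑ s, q^(wg s)) * Bd`.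
`lim_Q` (LibPQ/LM.lean) with `W = D.W`, `F = Sh.card`, `S₁ = D.Sg.card`, `B = D.W`, `E = 0`, `n₀ = Sp * (L * (W * L)) + I.card * L + L + 1`; `coreQW_n` with `κ = 4 * D.W * n`, `P = Cρ * win^W`; `hdeg`:
`Sp * L * (4 W n) + n ≤ I.card * n` from `hZE`, and `I.card * (n - L) + I.card * L = I.card * n` (as `KC_deg`).
-/

namespace WX

open Finset Polynomial CM68

private theorem KCW_deg {Sp L I W n : ℕ} (hZE : Sp * L * (8 * W) < I)
    (hn : Sp * (L * (W * L)) + I * L + L + 1 ≤ n) :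
    Sp * (L * (4 * W * n + W * L)) ≤ I * (n - L) := by
  have h1 : (Sp * L * (8 * W) + 1) * n ≤ I * n := Nat.mul_le_mul_right n hZE
  have h2 : Sp * (L * (4 * W * n + W * L)) = Sp * L * (4 * W * n) + Sp * (L * (W * L)) := by ring
  have h3 : I * (n - L) + I * L = I * n := by
    rw [← Nat.mul_add]
    congr 1
    omega
  have h4 : (Sp * L * (8 * W) + 1) * n = Sp * L * (4 * W * n) + Sp * L * (4 * W * n) + n := by
    ring
  omega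

theorem coreQW (D : DatW) {Qb lam F₂ : ℕ} (hQb : 2 ≤ Qb) (hlam : Real.log Qb + 2 ≤ lam)
    (hcol : ∀ x ∈ D.I, D.Col Qb x) (hW : 1 ≤ D.W) (hF1 : 1 ≤ F₂)
    (hSg : D.Sg.card + F₂ ≤ Fintype.card D.Ix) (hF : 12 * lam * D.Sg.card ≤ F₂)
    (hZE : D.Sp * D.L * (8 * D.W) < D.I.card) : False := by
  classical
  obtain ⟨Sh, hsub, hcard⟩ : ∃ Sh : Finset D.Ix, Sh ⊆ univ \ D.Sg ∧ Sh.card = F₂ := by
    apply Finset.exists_subset_card_eq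
    have h1 : (univ \ D.Sg : Finset D.Ix).card + D.Sg.card = Fintype.card D.Ix := by
      rw [Finset.card_sdiff_add_card_eq_card (Finset.subset_univ _), Finset.card_univ]
    omega
  have hdis : ∀ s ∈ Sh, s ∉ D.Sg := fun s hs => (mem_sdiff.1 (hsub hs)).2
  obtain ⟨Kx, ec, hK1, hKx⟩ := rowQ_repW D
  -- the denominator and the bound
  obtain ⟨D₀, hD₀, hden⟩ := exists_den
    ((univ : Finset (Fin D.H)) ×ˢ range D.q) (fun t => D.φ t.1 t.2)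
  have hco : ∀ h, ∀ x < D.q, ∃ m : ℤ, (D₀ : ℚ) * D.φ h x = m := fun h x hx =>
    hden (h, x) (mem_product.2 ⟨mem_univ _, mem_range.2 hx⟩)
  obtain ⟨Bd, hB1, hBd⟩ : ∃ Bd : ℝ, 1 ≤ Bd ∧ ∀ h, ∀ x < D.q, |(D.φ h x : ℝ)| ≤ Bd := by
    refine ⟨1 + ∑ t ∈ (univ : Finset (Fin D.H)) ×ˢ range D.q, |(D.φ t.1 t.2 : ℝ)|, ?_, ?_⟩
    · have : 0 ≤ ∑ t ∈ (univ : Finset (Fin D.H)) ×ˢ range D.q, |(D.φ t.1 t.2 : ℝ)| :=
        sum_nonneg fun t _ => abs_nonneg _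
      linarith
    · intro h x hx
      have h1 := single_le_sum (f := fun t : Fin D.H × ℕ => |(D.φ t.1 t.2 : ℝ)|)
        (fun t _ => abs_nonneg _) (mem_product.2 ⟨mem_univ h, mem_range.2 hx⟩ :
          (h, x) ∈ (univ : Finset (Fin D.H)) ×ˢ range D.q)
      have h2 : |(D.φ h x : ℝ)| ≤ _ := h1
      linarith
  have hBd0 : (0 : ℝ) ≤ Bd := by linarith
  obtain ⟨Cρ, hC1, hCρ⟩ : ∃ Cρ : ℝ, 1 ≤ Cρ ∧ ∀ n : ℕ, ∀ s : D.Ix, ∀ j ∈ D.Nd n,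
      |D.rho n s j| ≤ Cρ * (win n n : ℝ) ^ D.W := by
    have hs0 : (0 : ℝ) ≤ ∑ s : D.Ix, (D.q : ℝ) ^ wg D.wd (s.2 : Fin D.N → ℕ) :=
      sum_nonneg fun s _ => pow_nonneg (Nat.cast_nonneg _) _
    refine ⟨(1 + ∑ s : D.Ix, (D.q : ℝ) ^ wg D.wd (s.2 : Fin D.N → ℕ)) * Bd,
      one_le_mul_of_one_le_of_one_le (by linarith) hB1, ?_⟩
    intro n s j hj
    have h1 : (D.q : ℝ) ^ wg D.wd (s.2 : Fin D.N → ℕ) ≤
        1 + ∑ s : D.Ix, (D.q : ℝ) ^ wg D.wd (s.2 : Fin D.N → ℕ) := by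
      have h2 := single_le_sum (f := fun s : D.Ix => (D.q : ℝ) ^ wg D.wd (s.2 : Fin D.N → ℕ))
        (fun s _ => pow_nonneg (Nat.cast_nonneg _) _) (mem_univ s)
      have h3 : (D.q : ℝ) ^ wg D.wd (s.2 : Fin D.N → ℕ) ≤ _ := h2
      linarith
    have h4 := row_leW D hBd hj (T := n) s
    unfold DatW.rho
    rw [abs_mul, abs_of_nonneg (pow_nonneg (Nat.cast_nonneg D.q)
      (wg D.wd (s.2 : Fin D.N → ℕ)) : (0 : ℝ) ≤ _), mul_assoc]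
    exact mul_le_mul h1 h4 (abs_nonneg _) (by linarith)
  refine lim_Q (W := D.W) (F := F₂) (S₁ := D.Sg.card) (Qb := Qb) (D₀ := D₀)
    (B := D.W) (E := 0) (ec := ec)
    (n₀ := D.Sp * (D.L * (D.W * D.L)) + D.I.card * D.L + D.L + 1)
    (lam := (lam : ℝ)) (Kx := Kx) (Cρ := Cρ) hW hF1 ?_ hQb hlam hD₀ hK1 hC1 ?_
  · exact_mod_cast hF
  · intro n hn R hR G hG
    have hn1 : 1 ≤ n := by omega
    have hκ : 1 ≤ 4 * D.W * n := Nat.mul_pos (Nat.mul_pos (by norm_num) hW) hn1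
    have hwin0 : (0 : ℝ) ≤ (win n n : ℝ) := Nat.cast_nonneg _
    exact coreQW_n D Sh hdis (Qb := Qb) (n := n) (D₀ := D₀) (κ := 4 * D.W * n) (G := G)
      (ec := ec) (P := Cρ * (win n n : ℝ) ^ D.W) (Kx := Kx) hn1 hκ hD₀ hco hcol (by omega)
      (KCW_deg hZE hn) (mul_nonneg (by linarith) (pow_nonneg hwin0 _)) (hCρ n) hK1 hKx
      (R := R) (by rw [hcard]; exact hR) (by rw [hR]; exact Nat.mul_pos hF1 hκ) hG

end WX
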