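import Mathlib

/-!
# Row PF: the final bound (SHORT, natural numbers, ONLY MATHLIB; template LibWX/PAW.lean with `lam ^ 2` replaced by `Lam`)

`y = 26 KK Lam`.  `b₀ + 1 = (26 Lam K)^2 ≤ y^2`, `B + 1 ≤ (26 Lam N)^2 ≤ y^2` (natural subtraction: the squares are `≥ 1`).  The left hand side is at most
`2 * 2 (y^2)^K * ((y^2)^K * (y^2)^N) * (8 (w y^2)) = 32 w * y^(4 K + 2 N + 2)`; `32 w ≤ 32 KK ≤ y^2`, and `4 K + 2 N + 4 ≤ 2 KK + 2 (KK - 1) + 4 = 4 KK + 2`.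
-/

namespace WX

theorem parFinWQ {K N w Lam KK B b₀ H e₀ : ℕ} (hLam : 1 ≤ Lam) (hw : 1 ≤ w) (hwK : w ≤ KK)
    (hK1 : 1 ≤ K) (hN : 1 ≤ N) (h1 : 2 * K ≤ KK) (h2 : N + 1 ≤ KK)
    (hb : b₀ = (26 * Lam * K) ^ 2 - 1) (hB : B ≤ (26 * Lam * N) ^ 2 - 1)
    (hH : H ≤ (b₀ + 1) ^ K) (he : e₀ ≤ (B + 1) ^ N) :
    2 * ((2 * (b₀ + 1) ^ K) * (H * e₀) * (8 * (w * B))) ≤ (26 * KK * Lam) ^ (4 * KK + 2) := by
  obtain ⟨y, hy⟩ : ∃ y, y = 26 * KK * Lam := ⟨_, rfl⟩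
  have hKK : 1 ≤ KK := hw.trans hwK
  have hy1 : 1 ≤ y := by
    rw [hy]
    exact Nat.mul_pos (Nat.mul_pos (by norm_num) hKK) hLam
  have hKy : 26 * Lam * K ≤ y := by
    rw [hy]
    have : K ≤ KK := by omega
    calc 26 * Lam * K ≤ 26 * Lam * KK := Nat.mul_le_mul_left _ this
      _ = 26 * KK * Lam := by ring
  have hNy : 26 * Lam * N ≤ y := by
    rw [hy]
    have : N ≤ KK := by omega
    calc 26 * Lam * N ≤ 26 * Lam * KK := Nat.mul_le_mul_left _ this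
      _ = 26 * KK * Lam := by ring
  have hK2 : 1 ≤ (26 * Lam * K) ^ 2 :=
    Nat.one_le_pow _ _ (Nat.mul_pos (Nat.mul_pos (by norm_num) hLam) hK1)
  have hN2 : 1 ≤ (26 * Lam * N) ^ 2 :=
    Nat.one_le_pow _ _ (Nat.mul_pos (Nat.mul_pos (by norm_num) hLam) hN)
  have hb1 : b₀ + 1 ≤ y ^ 2 := by
    have e : b₀ + 1 = (26 * Lam * K) ^ 2 := by omega
    rw [e]
    exact Nat.pow_le_pow_left hKy 2
  have hB1 : B + 1 ≤ y ^ 2 := by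
    have e : B + 1 ≤ (26 * Lam * N) ^ 2 := by omega
    exact e.trans (Nat.pow_le_pow_left hNy 2)
  have hH1 : H ≤ (y ^ 2) ^ K := hH.trans (Nat.pow_le_pow_left hb1 K)
  have he1 : e₀ ≤ (y ^ 2) ^ N := he.trans (Nat.pow_le_pow_left hB1 N)
  have hb2 : (b₀ + 1) ^ K ≤ (y ^ 2) ^ K := Nat.pow_le_pow_left hb1 K
  have hB2 : B ≤ y ^ 2 := by omega
  have hwy : 32 * w ≤ y ^ 2 := by
    have e1 : y ^ 2 = 676 * (KK * KK) * (Lam * Lam) := by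
      rw [hy]
      ring
    rw [e1]
    have e2 : 1 ≤ Lam * Lam := Nat.mul_pos hLam hLam
    have e3 : KK ≤ KK * KK := Nat.le_mul_of_pos_left _ hKK
    calc 32 * w ≤ 32 * KK := Nat.mul_le_mul_left _ hwK
      _ ≤ 676 * (KK * KK) := by omega
      _ ≤ 676 * (KK * KK) * (Lam * Lam) := Nat.le_mul_of_pos_right _ e2
  rw [← hy]
  calc 2 * ((2 * (b₀ + 1) ^ K) * (H * e₀) * (8 * (w * B)))
      ≤ 2 * ((2 * (y ^ 2) ^ K) * ((y ^ 2) ^ K * (y ^ 2) ^ N) * (8 * (w * y ^ 2))) := by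
        gcongr
    _ = (32 * w) * y ^ (4 * K + 2 * N + 2) := by ring
    _ ≤ y ^ 2 * y ^ (4 * K + 2 * N + 2) := Nat.mul_le_mul_right _ hwy
    _ = y ^ (4 * K + 2 * N + 4) := by ring
    _ ≤ y ^ (4 * KK + 2) := Nat.pow_le_pow_right hy1 (by omega)

end WX
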