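import Pool.Agent.LibPQ.PB
import Pool.Agent.LibWX.MKWX
import Pool.Agent.LibWX.W6
import Pool.Agent.LibWQ.KC
import Pool.Agent.LibWQ.PF

/-!
# The count of the exceptional classes, one weight (assembly; template LibWX/CNTWX.lean by helper5)
-/

namespace WX

open Finset Polynomial CM68

theorem countWQ {q w e N DD lam KK Qb : ℕ} (hq : 2 ≤ q) (hQb : 2 ≤ Qb) (hw : 1 ≤ w)
    {wd : Fin N → List ℕ} (hwd : IsWd w wd) (hN : 1 ≤ N) (hNK : N + 1 ≤ KK) (hwK : w ≤ KK)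
    (V : Submodule ℚ ℝ) [Module.Finite ℚ V] (hD : Module.finrank ℚ V = DD + 1)
    (Ws : Finset (List ℕ)) (hWs : ∀ u : List ℕ, u ∈ Ws ↔ Adms u ∧ u.sum ≤ w)
    (hKK : 2 * (Ws.card * (DD + 1)) ≤ KK)
    (hlam : Real.log Qb + 2 ≤ lam)
    (I₀ : Finset ℕ) (c : List ℕ → ℕ → ℝ)
    (hI : ∀ x ∈ I₀, 0 < x ∧ x < q)
    (hcol : ∀ x ∈ I₀, ∃ d b : ℕ, 2 ≤ b ∧ b ≤ Qb ∧ q = d * b ∧ d ∣ x) (he : 1 ≤ e)
    (hcV : ∀ x ∈ I₀, ∀ u ∈ Ws, c u x ∈ V)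
    (hsup : ∀ x ∈ I₀, ∀ u ∈ Ws, c u x ≠ 0 → u.sum ≤ e)
    (hlead : ∀ x ∈ I₀, ∃ u ∈ Ws, u.sum = e ∧ c u x ≠ 0)
    (hrel : ∀ x ∈ I₀, ∑ u ∈ Ws, c u x * sw q (x : ℝ) u = 0) :
    I₀.card ≤ (26 * KK * (3 * lam)) ^ (4 * KK + 2) := by
  classical
  rcases I₀.eq_empty_or_nonempty with h0 | hne
  · rw [h0, card_empty]
    exact Nat.zero_le _
  obtain ⟨K, hK⟩ : ∃ K, K = Ws.card * (DD + 1) := ⟨_, rfl⟩
  have hWs1 : 1 ≤ Ws.card := by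
    obtain ⟨x, hx⟩ := hne
    obtain ⟨u, hu, -⟩ := hlead x hx
    exact card_pos.2 ⟨u, hu⟩
  have hK1 : 1 ≤ K := by
    rw [hK]
    exact Nat.mul_pos hWs1 (by omega)
  rw [← hK] at hKK
  have hlam1 : 1 ≤ lam := by
    have h1 : (0 : ℝ) ≤ Real.log Qb := Real.log_nonneg (by exact_mod_cast (by omega : 1 ≤ Qb))
    have h2 : (1 : ℝ) ≤ lam := by linarith
    exact_mod_cast h2
  obtain ⟨Lam, hLam⟩ : ∃ Lam, Lam = 3 * lam := ⟨_, rfl⟩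
  rw [← hLam]
  have hLam1 : 1 ≤ Lam := by omega
  have hLamR : (1 : ℝ) ≤ Lam := by exact_mod_cast hLam1
  have hε : (0 : ℝ) < 1 / (12 * (Lam : ℝ)) := by positivity
  obtain ⟨ε, hεd⟩ : ∃ ε : ℝ, ε = 1 / (12 * (Lam : ℝ)) := ⟨_, rfl⟩
  rw [← hεd] at hε
  obtain ⟨B, hB1, hB2, Λ, Λ', hΛ, hΛ', hΛ'1, hΛΛ'⟩ := exists_growth wd
    (B₀ := (26 * Lam * N) ^ 2 - 1) (ε := ε) hε (by
      rw [hεd]
      exact parbQ hN hLam1)
  obtain ⟨b₀, hb₀⟩ : ∃ b₀, b₀ = (26 * Lam * K) ^ 2 - 1 := ⟨_, rfl⟩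
  obtain ⟨D, H', e1, e2, e3, e4, e5, hII, hIc, hH', hHH', hHb, hSg⟩ :=
    mkWX (q := q) (w := w) (e := e) (DD := DD) (B := B) (b₀ := b₀)
      (Sp := 2 * (b₀ + 1) ^ K) (ε := ε) hq hw hwd hB1 hΛ hΛ' V hD Ws hWs I₀ hne c hI he hε
      (by rw [hK]) (by
        rw [← hK, hb₀, hεd]
        exact parbQ hK1 hLam1) hcV hsup hlead hrel
  rw [← hK] at hHb
  obtain ⟨E', hE'⟩ : ∃ E', E' = Λ'.card := ⟨_, rfl⟩
  obtain ⟨E₀, hE₀⟩ : ∃ E₀, E₀ = Λ.card := ⟨_, rfl⟩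
  rw [← hE', ← hE₀] at hSg hΛΛ'
  rw [← hE₀] at e5
  rw [← hE'] at hΛ'1
  have hcardIx : Fintype.card D.Ix = D.H * E₀ := by
    rw [Fintype.card_prod, Fintype.card_fin, Fintype.card_coe, e5]
  have hF₂1 : 1 ≤ H' * E' := Nat.mul_pos hH' hΛ'1
  have hcardle : H' * E' ≤ D.H * E₀ := by omega
  have hSgc : D.Sg.card = D.H * E₀ - H' * E' := by omega
  -- the proportion
  have hF : 4 * Lam * (D.H * E₀ - H' * E') ≤ H' * E' := by
    have h2 : ((D.H * E₀ : ℕ) : ℝ) ≤ (1 + ε) ^ 2 * (H' * E') := by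
      push_cast
      calc (D.H : ℝ) * E₀ ≤ ((1 + ε) * H') * ((1 + ε) * E') :=
            mul_le_mul hHH' hΛΛ' (Nat.cast_nonneg _) (by positivity)
        _ = _ := by ring
    have hε1 : ε ≤ 1 := by
      rw [hεd, div_le_one (by positivity)]
      linarith
    have h3 : (1 + ε) ^ 2 ≤ 1 + 3 * ε := by nlinarith
    have h4 : (4 * (Lam : ℝ)) * (3 * ε) = 1 := by
      rw [hεd]
      field_simp
      norm_num
    have h5 : (0 : ℝ) ≤ (H' : ℝ) * E' := by positivity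
    have h6 : (4 * (Lam : ℝ) * (D.H * E₀ - H' * E') : ℝ) ≤ H' * E' := by
      push_cast at h2
      have h7 : (D.H : ℝ) * E₀ - H' * E' ≤ (3 * ε) * (H' * E') := by
        have := mul_le_mul_of_nonneg_right h3 h5
        linarith
      calc (4 * (Lam : ℝ) * (D.H * E₀ - H' * E') : ℝ)
          ≤ 4 * (Lam : ℝ) * ((3 * ε) * (H' * E')) :=
            mul_le_mul_of_nonneg_left h7 (by positivity)
        _ = ((4 * (Lam : ℝ)) * (3 * ε)) * (H' * E') := by ring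
        _ = H' * E' := by rw [h4, one_mul]
    have h8 : ((4 * Lam * (D.H * E₀ - H' * E') : ℕ) : ℝ) ≤ ((H' * E' : ℕ) : ℝ) := by
      push_cast [Nat.cast_sub hcardle]
      exact h6
    exact_mod_cast h8
  have hE₀le : E₀ ≤ (B + 1) ^ N := by
    rw [hE₀]
    exact (card_le_card hΛ.sub).trans (card_expo_le N B)
  have hfin := parFinWQ (K := K) (N := N) (w := w) (Lam := Lam) (KK := KK) (B := B) (b₀ := b₀)
    (H := D.H) (e₀ := E₀) hLam1 hw hwK hK1 hN hKK hNK hb₀ hB2 hHb hE₀le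
  by_contra hcon
  push Not at hcon
  have hlt := lt_of_le_of_lt hfin hcon
  have hDW : D.W = w * B := by
    unfold DatW.W
    rw [e2, e3]
  have hDL : D.L = D.H * E₀ := by
    unfold DatW.L
    rw [e5]
  have hZE : D.Sp * D.L * (8 * D.W) < D.I.card := by
    rw [e4, hDL, hDW]
    omega
  have hW : 1 ≤ D.W := by
    rw [hDW]
    exact Nat.mul_pos hw hB1
  refine coreQW D (Qb := Qb) (lam := lam) (F₂ := H' * E') hQb hlam (fun x hx => ?_) hW hF₂1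
    (by rw [hcardIx]; omega) ?_ hZE
  · obtain ⟨d, b, hb2, hbQ, hqd, hdx⟩ := hcol x (hII hx)
    exact ⟨d, b, hb2, hbQ, by rw [e1]; exact hqd, hdx⟩
  · rw [hSgc]
    calc 12 * lam * (D.H * E₀ - H' * E') = 4 * Lam * (D.H * E₀ - H' * E') := by rw [hLam]; ring
      _ ≤ H' * E' := hF

end WX
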