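import Pool.Agent.LibMH.R1
import Pool.Agent.LibMH.R2
import Pool.Agent.LibMH.TSW
import Pool.Agent.LibMH.WMW

/-!
# Row SH: the shift `y ↦ y + 1` (MEDIUM)

`zetaH_shift`: `zetaH_eq` (LibMH/TSW), `sw_scale` (LibMH/R2: `sw q x v = 1 / q^(v.sum) * sw 1 (x / q) v`, also for `x + q`: `(x + q) / q = x / q + 1`), and `sw_split` with `M = 1`, word `u = v ++ [k]`:
`sw q x u = ∑ i ∈ range (u.length + 1), sw q (x + q * 1) (u.take i) * pw q x (u.drop i) 1`.  `pw q x [] 1 = 1`, `pw q x [k] 1 = 1 / x^k`, and `pw q x (k' :: k'' :: _) 1 = 0` (`pw .. (k'' :: _) 0 = 0`, an empty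
sum): only `i = u.length` (`take = u`) and `i = u.length - 1` (`take = v`, `drop = [k]`) remain (`Finset.sum_range_succ` twice, the rest is zero: `u.drop i` has length `≥ 2`).  `x^k * q^(|v|) = (x / q)^k * q^(|v| + k)`.
`indep_step`: let `c w ∈ V`, `∑ c w * zetaH w (y + 1) = 0`, `y = x / q`.  For a word `v ∈ W'` put `c' v = ∑ u ∈ W', if v <+: u then (-1)^(u.length - v.length) * (1 / y^(u.sum - v.sum)) * c u else 0` (in `V`: rational
multiples, `Rat.smul_def`, `y` is rational).  `∑ v, c' v * zetaH v y = ∑ u, c u * zetaH u (y + 1)` by the inverse formula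
`zetaH u (y + 1) = ∑ i ∈ range (u.length + 1), (-1)^(u.length - i) * (1 / y^((u.drop i).sum)) * zetaH (u.take i) y` (induction on the word from the right, `List.reverseRecOn`, from `zetaH_shift`; prefixes of
admissible words are admissible) and `sum_prefix` (LibMH/R1).  So all `c' v = 0` by hypothesis; if some `c u ≠ 0` take one of maximal length (`Finset.exists_max_image`): `c' u = c u` (a word of `W'` with prefix `u`
different from `u` is longer): contradiction.
`indep_shift`: induction on `n`, `x / q + (n + 1) = (x + q n) / q + 1`.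
-/

namespace WX

open Finset CM68 Pool.MH.Stmt

private theorem SH_pw_two (q : ℕ) (x : ℝ) (u : List ℕ) (hu : 2 ≤ u.length) : pw q x u 1 = 0 := by
  match u, hu with
  | k :: k' :: v, _ =>
    rw [pw, Finset.sum_range_one, pw, Finset.sum_range_zero, mul_zero]

private theorem SH_pw_one (q : ℕ) (x : ℝ) (k : ℕ) : pw q x [k] 1 = 1 / x ^ k := by
  rw [pw, Finset.sum_range_one, pw, mul_one, Nat.cast_zero, mul_zero, zero_add]

private theorem SH_zeta {x q : ℕ} (hx : 1 ≤ x) (hq : 1 ≤ q) (v : List ℕ) :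
    zetaH v ((x : ℝ) / q) = (q : ℝ) ^ v.sum * sw q x v := by
  have hq0 : (q : ℝ) ≠ 0 := by exact_mod_cast (by omega : q ≠ 0)
  have hx0 : (0 : ℝ) < x := by exact_mod_cast hx
  have hq1 : (0 : ℝ) < q := by exact_mod_cast hq
  rw [zetaH_eq (div_pos hx0 hq1), sw_scale hq (x : ℝ) v, ← mul_assoc,
    mul_one_div_cancel (pow_ne_zero _ hq0), one_mul]

private theorem SH_zeta1 {x q : ℕ} (hx : 1 ≤ x) (hq : 1 ≤ q) (v : List ℕ) :
    zetaH v ((x : ℝ) / q + 1) = (q : ℝ) ^ v.sum * sw q ((x : ℝ) + q * (1 : ℕ)) v := by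
  have hq0 : (q : ℝ) ≠ 0 := by exact_mod_cast (by omega : q ≠ 0)
  have h := SH_zeta (x := x + q) (q := q) (by omega) hq v
  have e1 : ((x + q : ℕ) : ℝ) / q = (x : ℝ) / q + 1 := by
    push_cast
    rw [add_div, div_self hq0]
  have e2 : ((x + q : ℕ) : ℝ) = (x : ℝ) + q * (1 : ℕ) := by
    push_cast
    ring
  rw [e1] at h
  rw [h, e2]

theorem zetaH_shift {x q : ℕ} (hx : 1 ≤ x) (hq : 1 ≤ q) {v : List ℕ} {k : ℕ}
    (h : Adms (v ++ [k])) :
    zetaH (v ++ [k]) ((x : ℝ) / q) =
      zetaH (v ++ [k]) ((x : ℝ) / q + 1) + 1 / ((x : ℝ) / q) ^ k * zetaH v ((x : ℝ) / q + 1) := by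
  have hq0 : (q : ℝ) ≠ 0 := by exact_mod_cast (by omega : q ≠ 0)
  have hx0 : (x : ℝ) ≠ 0 := by exact_mod_cast (by omega : x ≠ 0)
  have hx1 : (1 : ℝ) ≤ x := by exact_mod_cast hx
  have hlen : (v ++ [k]).length = v.length + 1 := by simp
  have hs := sw_split hq hx1 h 1
  rw [hlen, Finset.sum_range_succ, Finset.sum_range_succ] at hs
  have h0 : ∑ i ∈ range v.length, sw q ((x : ℝ) + q * (1 : ℕ)) ((v ++ [k]).take i) *
      pw q x ((v ++ [k]).drop i) 1 = 0 := by
    refine Finset.sum_eq_zero fun i hi => ?_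
    rw [Finset.mem_range] at hi
    rw [SH_pw_two q x _ (by rw [List.length_drop, hlen]; omega), mul_zero]
  have t1 : (v ++ [k]).take v.length = v := List.take_left
  have t2 : (v ++ [k]).drop v.length = [k] := List.drop_left
  have t3 : (v ++ [k]).take (v.length + 1) = v ++ [k] := by
    rw [← hlen, List.take_length]
  have t4 : (v ++ [k]).drop (v.length + 1) = [] := by
    rw [← hlen, List.drop_length]
  rw [h0, t1, t2, t3, t4, SH_pw_one, zero_add] at hs
  have hnil : pw q x [] 1 = 1 := by rw [pw]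
  rw [hnil, mul_one] at hs
  rw [SH_zeta hx hq, SH_zeta1 hx hq, SH_zeta1 hx hq, hs, List.sum_append, List.sum_singleton]
  rw [div_pow, one_div_div, pow_add]
  field_simp
  ring

private theorem SH_adms {u v : List ℕ} (h : Adms (u ++ v)) : Adms u :=
  admissible_prefix (u := u) (v := v) h

/-- the inverse formula -/
private theorem SH_inv {x q : ℕ} (hx : 1 ≤ x) (hq : 1 ≤ q) (u : List ℕ) : Adms u →
    zetaH u ((x : ℝ) / q + 1) = ∑ i ∈ range (u.length + 1), (-1 : ℝ) ^ (u.length - i) *
      (1 / ((x : ℝ) / q) ^ (u.drop i).sum) * zetaH (u.take i) ((x : ℝ) / q) := by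
  induction u using List.reverseRecOn with
  | nil =>
    intro _
    have h1 : zetaH [] ((x : ℝ) / q) = 1 := by
      rw [SH_zeta hx hq, sw]
      simp
    have h2 : zetaH [] ((x : ℝ) / q + 1) = 1 := by
      rw [SH_zeta1 hx hq, sw]
      simp
    rw [h2]
    simp [h1]
  | append_singleton v k ih =>
    intro h
    have hv := ih (SH_adms h)
    have hs := zetaH_shift hx hq h
    have hlen : (v ++ [k]).length = v.length + 1 := by simp
    rw [hlen, Finset.sum_range_succ]
    have t3 : (v ++ [k]).take (v.length + 1) = v ++ [k] := by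
      rw [← hlen, List.take_length]
    have t4 : (v ++ [k]).drop (v.length + 1) = [] := by
      rw [← hlen, List.drop_length]
    rw [t3, t4, Nat.sub_self, pow_zero, List.sum_nil, pow_zero, div_one, one_mul, one_mul]
    have h1 : ∑ i ∈ range (v.length + 1), (-1 : ℝ) ^ (v.length + 1 - i) *
        (1 / ((x : ℝ) / q) ^ ((v ++ [k]).drop i).sum) *
          zetaH ((v ++ [k]).take i) ((x : ℝ) / q) =
        -(1 / ((x : ℝ) / q) ^ k * zetaH v ((x : ℝ) / q + 1)) := by
      rw [hv, Finset.mul_sum, ← Finset.sum_neg_distrib]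
      refine Finset.sum_congr rfl fun i hi => ?_
      have hi' : i ≤ v.length := Nat.lt_succ_iff.1 (Finset.mem_range.1 hi)
      have e1 : (v ++ [k]).take i = v.take i := List.take_append_of_le_length hi'
      have e2 : (v ++ [k]).drop i = v.drop i ++ [k] := List.drop_append_of_le_length hi'
      have e3 : v.length + 1 - i = (v.length - i) + 1 := by omega
      rw [e1, e2, e3, List.sum_append, List.sum_singleton, pow_succ, pow_add, one_div, mul_inv,
        one_div, one_div]
      ring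
    rw [h1]
    linarith

theorem indep_step {M x q : ℕ} (hx : 1 ≤ x) (hq : 1 ≤ q) {W' : Finset (List ℕ)}
    (hW' : ∀ w, w ∈ W' ↔ Admissible w ∧ w.sum ≤ M) {V : Submodule ℚ ℝ}
    (h : IndepV V W' fun u => zetaH u ((x : ℝ) / q)) :
    IndepV V W' fun u => zetaH u ((x : ℝ) / q + 1) := by
  classical
  intro c hc hsum
  have hpre : ∀ u v : List ℕ, u ++ v ∈ W' → u ∈ W' := by
    intro u v huv
    rw [hW'] at huv ⊢
    refine ⟨admissible_prefix huv.1, ?_⟩
    have := huv.2
    rw [List.sum_append] at this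
    omega
  obtain ⟨y, hy⟩ : ∃ y : ℝ, y = (x : ℝ) / q := ⟨_, rfl⟩
  obtain ⟨T, hT⟩ : ∃ T : List ℕ → List ℕ → ℝ, T = fun v u =>
      if v <+: u then (-1 : ℝ) ^ (u.length - v.length) * (1 / y ^ (u.sum - v.sum)) * c u else 0 :=
    ⟨_, rfl⟩
  have hTV : ∀ v, ∀ u ∈ W', T v u ∈ V := by
    intro v u hu
    rw [hT]
    by_cases hvu : v <+: u
    · simp only [if_pos hvu]
      have e1 : (-1 : ℝ) ^ (u.length - v.length) * (1 / y ^ (u.sum - v.sum)) * c u =
          ((-1 : ℚ) ^ (u.length - v.length) * (1 / ((x : ℚ) / q) ^ (u.sum - v.sum))) • c u := by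
        rw [Rat.smul_def, hy]
        push_cast
        ring
      rw [e1]
      exact V.smul_mem _ (hc u hu)
    · simp only [if_neg hvu]
      exact V.zero_mem
  have hsum' : ∑ v ∈ W', (∑ u ∈ W', T v u) * zetaH v ((x : ℝ) / q) = 0 := by
    rw [← hsum]
    simp_rw [Finset.sum_mul]
    rw [Finset.sum_comm]
    refine Finset.sum_congr rfl fun u hu => ?_
    have hA : Adms u := ((hW' u).1 hu).1
    have e1 : ∑ v ∈ W', T v u * zetaH v ((x : ℝ) / q) = ∑ v ∈ W', if v <+: u then
        (-1 : ℝ) ^ (u.length - v.length) * (1 / y ^ (u.sum - v.sum)) * c u *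
          zetaH v ((x : ℝ) / q) else 0 := by
      refine Finset.sum_congr rfl fun v _ => ?_
      rw [hT]
      by_cases hvu : v <+: u
      · simp only [if_pos hvu]
      · simp only [if_neg hvu, zero_mul]
    rw [e1, sum_prefix hpre hu (fun v => (-1 : ℝ) ^ (u.length - v.length) *
      (1 / y ^ (u.sum - v.sum)) * c u * zetaH v ((x : ℝ) / q)), SH_inv hx hq u hA, Finset.mul_sum]
    refine Finset.sum_congr rfl fun i hi => ?_
    have hi' : i ≤ u.length := Nat.lt_succ_iff.1 (Finset.mem_range.1 hi)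
    have e2 : (u.take i).length = i := by
      rw [List.length_take]
      omega
    have e3 : u.sum - (u.take i).sum = (u.drop i).sum := by
      have : u.sum = (u.take i).sum + (u.drop i).sum := by
        rw [← List.sum_append, List.take_append_drop]
      omega
    rw [e2, e3, hy]
    ring
  have hzero := h (fun v => ∑ u ∈ W', T v u)
    (fun v _ => V.sum_mem fun u hu => hTV v u hu) hsum'
  by_contra hcon
  push Not at hcon
  obtain ⟨w, hw, hcw⟩ := hcon
  obtain ⟨u₀, hu₀, hmax⟩ := Finset.exists_max_image (W'.filter fun u => c u ≠ 0) List.length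
    ⟨w, Finset.mem_filter.2 ⟨hw, hcw⟩⟩
  rw [Finset.mem_filter] at hu₀
  have h1 : ∑ u ∈ W', T u₀ u = 0 := hzero u₀ hu₀.1
  rw [Finset.sum_eq_single u₀] at h1
  · rw [hT] at h1
    simp only [if_pos (List.prefix_refl u₀), Nat.sub_self, pow_zero, div_one, one_mul] at h1
    exact hu₀.2 h1
  · intro u hu hne
    rw [hT]
    by_cases hvu : u₀ <+: u
    · simp only [if_pos hvu]
      have h2 : c u = 0 := by
        by_contra h3
        have h4 := hmax u (Finset.mem_filter.2 ⟨hu, h3⟩)
        exact hne (hvu.eq_of_length_le h4).symm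
      rw [h2, mul_zero]
    · simp only [if_neg hvu]
  · intro h2
    exact absurd hu₀.1 h2

theorem indep_shift {M x q : ℕ} (hx : 1 ≤ x) (hq : 1 ≤ q) {W' : Finset (List ℕ)}
    (hW' : ∀ w, w ∈ W' ↔ Admissible w ∧ w.sum ≤ M) {V : Submodule ℚ ℝ}
    (h : IndepV V W' fun u => zetaH u ((x : ℝ) / q)) (n : ℕ) :
    IndepV V W' fun u => zetaH u ((x : ℝ) / q + n) := by
  have hq0 : (q : ℝ) ≠ 0 := by exact_mod_cast (by omega : q ≠ 0)
  induction n with
  | zero =>
    rw [Nat.cast_zero, add_zero]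
    exact h
  | succ n ih =>
    have e1 : ((x + q * n : ℕ) : ℝ) / q = (x : ℝ) / q + n := by
      push_cast
      field_simp
    have e2 : (x : ℝ) / q + ((n + 1 : ℕ) : ℝ) = ((x + q * n : ℕ) : ℝ) / q + 1 := by
      rw [e1]
      push_cast
      ring
    rw [e2]
    apply indep_step (x := x + q * n) (by omega) hq hW'
    rw [e1]
    exact ih

end WX
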