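import Pool.Agent.LibMH.REPW
import Pool.Agent.LibMH.WMW
import Pool.Agent.LibPX.PIX
import Pool.Agent.LibPX.GRX0
import Pool.Agent.LibPQ.QY
import Pool.Agent.LibPQ.TR0
import Pool.Agent.LibWX.W0
import Pool.Agent.LibWQ.CNT
import Pool.Agent.LibWQ.SH

/-!
# The count for the multiple Hurwitz zeta values, all rational numbers of bounded denominator (assembly, helper68; template LibWX/FINWX.lean by helper5)
-/

namespace WX

open Finset CM68 Pool.MH.Stmt

/-- the bound for the number of classes -/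
def bW (w K lam : ℕ) : ℕ := w * (26 * K * (3 * lam)) ^ (4 * K + 2)

theorem count_wordsQ {M D q Qb lam : ℕ} (hM : 1 ≤ M) (hq : 2 ≤ q) (hQb : 2 ≤ Qb)
    (hlam : Real.log Qb + 2 ≤ lam) {V : Submodule ℚ ℝ}
    (hVf : Module.Finite ℚ V) (hVD : Module.finrank ℚ V ≤ D) {W' : Finset (List ℕ)}
    (hW' : ∀ w, w ∈ W' ↔ Admissible w ∧ w.sum ≤ M) (hcardW : W'.card ≤ 2 ^ (M - 1))
    (I₀ : Finset ℕ)
    (hmem : ∀ x ∈ I₀, 0 < x ∧ x < q ∧ ¬ IndepV V W' fun u => zetaH u ((x : ℝ) / q))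
    (hcol : ∀ x ∈ I₀, ∃ d b : ℕ, 2 ≤ b ∧ b ≤ Qb ∧ q = d * b ∧ d ∣ x) :
    I₀.card ≤ bW M (D * 2 ^ M) lam := by
  classical
  rcases Nat.eq_zero_or_pos (Module.finrank ℚ V) with hr0 | hrpos
  · have hbot : V = ⊥ := by
      have hVf' := hVf
      exact Submodule.finrank_eq_zero.1 hr0
    have hemp : I₀ = ∅ := by
      rw [Finset.eq_empty_iff_forall_notMem]
      intro x hx
      apply (hmem x hx).2.2
      intro c hc _ u hu
      have h1 := hc u hu
      rw [hbot, Submodule.mem_bot] at h1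
      exact h1
    rw [hemp, Finset.card_empty]
    exact Nat.zero_le _
  obtain ⟨s, hs⟩ : ∃ s, Module.finrank ℚ V = s + 1 := ⟨Module.finrank ℚ V - 1, by omega⟩
  have hsD : s + 1 ≤ D := by omega
  have hex : ∀ x : ℕ, ∃ c : List ℕ → ℝ, x ∈ I₀ → (∀ u ∈ W', c u ∈ V) ∧
      ∑ u ∈ W', c u * sw q (x : ℝ) u = 0 ∧ ∃ u ∈ W', c u ≠ 0 := by
    intro x
    by_cases hx0 : x ∈ I₀
    · obtain ⟨hx1, hx2, hx3⟩ := hmem x hx0
      unfold IndepV at hx3
      push Not at hx3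
      obtain ⟨c, h2, h3, u₀, hu₀, hu₀'⟩ := hx3
      have hqR : (q : ℝ) ≠ 0 := by exact_mod_cast (by omega : q ≠ 0)
      refine ⟨fun u => c u * (q : ℝ) ^ u.sum, fun _ => ⟨?_, ?_, u₀, hu₀,
        mul_ne_zero hu₀' (pow_ne_zero _ hqR)⟩⟩
      · intro u hu
        have h4 := V.smul_mem ((q : ℚ) ^ u.sum) (h2 u hu)
        rw [Rat.smul_def] at h4
        have h5 : (((q : ℚ) ^ u.sum : ℚ) : ℝ) * c u = c u * (q : ℝ) ^ u.sum := by
          rw [mul_comm, Rat.cast_pow, Rat.cast_natCast]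
        rw [h5] at h4
        exact h4
      · have hxpos : (0 : ℝ) < (x : ℝ) / q := by
          have h2 : (0 : ℝ) < x := by exact_mod_cast hx1
          have h3 : (0 : ℝ) < q := by exact_mod_cast (by omega : 0 < q)
          positivity
        rw [← h3]
        apply Finset.sum_congr rfl
        intro u _
        rw [sw_scale (by omega : 1 ≤ q), ← zetaH_eq hxpos u, mul_assoc]
        congr 1
        rw [← mul_assoc, mul_one_div_cancel (pow_ne_zero _ hqR), one_mul]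
    · exact ⟨0, fun h => absurd h hx0⟩
  choose c hc using hex
  -- the weight of the relation
  obtain ⟨I, hIdef⟩ : ∃ I : ℕ → Finset ℕ, ∀ e, I e = I₀.filter fun x =>
      (∀ u ∈ W', c x u ≠ 0 → u.sum ≤ e) ∧ ∃ u ∈ W', u.sum = e ∧ c x u ≠ 0 := ⟨_, fun _ => rfl⟩
  have hcover : I₀ ⊆ (Icc 1 M).biUnion I := by
    intro x hx
    obtain ⟨h1, h2, u₀, hu₀, hu₀'⟩ := hc x hx
    obtain ⟨u, hu, hmax⟩ := Finset.exists_max_image (W'.filter fun u => c x u ≠ 0) List.sum
      ⟨u₀, mem_filter.2 ⟨hu₀, hu₀'⟩⟩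
    obtain ⟨hu1, hu2⟩ := mem_filter.1 hu
    have hmax' : ∀ v ∈ W', c x v ≠ 0 → v.sum ≤ u.sum := fun v hv hv' =>
      hmax v (mem_filter.2 ⟨hv, hv'⟩)
    rw [mem_biUnion]
    refine ⟨u.sum, mem_Icc.2 ⟨?_, ((hW' u).1 hu1).2⟩, ?_⟩
    · by_contra hcon
      have hu0 : u.sum = 0 := by omega
      have hnil : ∀ v ∈ W', c x v ≠ 0 → v = [] := by
        intro v hv hv'
        have h3 := hmax' v hv hv'
        rcases v with _ | ⟨k, v⟩
        · rfl
        · have h4 := ((hW' _).1 hv).1.1 k (by simp)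
          rw [List.sum_cons] at h3
          omega
      have hunil := hnil u hu1 hu2
      subst hunil
      rw [Finset.sum_eq_single_of_mem ([] : List ℕ) hu1] at h2
      · have h5 : sw q (x : ℝ) [] = 1 := by simp [sw]
        rw [h5, mul_one] at h2
        exact hu2 h2
      · intro v hv hne
        by_contra hcon2
        exact hne (hnil v hv (left_ne_zero_of_mul hcon2))
    · rw [hIdef, mem_filter]
      exact ⟨hx, hmax', u, hu1, rfl, hu2⟩
  -- the words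
  obtain ⟨N, wd, hN, hN2, hwd⟩ := exists_wd hM
  obtain ⟨KK, hKK⟩ : ∃ KK, KK = D * 2 ^ M := ⟨_, rfl⟩
  have h2M : 2 ^ M ≤ KK := by
    rw [hKK]
    exact Nat.le_mul_of_pos_left _ (by omega)
  have hMlt : M < 2 ^ M := Nat.lt_two_pow_self
  have hK2 : 2 * (W'.card * (s + 1)) ≤ KK := by
    have h1 : 2 ^ M = 2 * 2 ^ (M - 1) := by
      rw [← pow_succ']
      congr 1
      omega
    calc 2 * (W'.card * (s + 1)) ≤ 2 * (2 ^ (M - 1) * D) :=
          Nat.mul_le_mul_left _ (Nat.mul_le_mul hcardW hsD)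
      _ = KK := by rw [hKK, h1]; ring
  have hVf' := hVf
  have hI : ∀ e ∈ Icc 1 M, (I e).card ≤ (26 * KK * (3 * lam)) ^ (4 * KK + 2) := by
    intro e he
    have hmemI : ∀ x ∈ I e, x ∈ I₀ ∧ (∀ u ∈ W', c x u ≠ 0 → u.sum ≤ e) ∧
        ∃ u ∈ W', u.sum = e ∧ c x u ≠ 0 := by
      intro x hx
      rw [hIdef, mem_filter] at hx
      exact hx
    exact countWQ (w := M) (e := e) (N := N) (DD := s) (lam := lam) (KK := KK) (Qb := Qb) hq hQb
      hM hwd hN (by omega) (by omega) V hs W' (fun u => hW' u) hK2 hlam (I e) (fun u x => c x u)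
      (fun x hx => ⟨(hmem x (hmemI x hx).1).1, (hmem x (hmemI x hx).1).2.1⟩)
      (fun x hx => hcol x (hmemI x hx).1)
      (mem_Icc.1 he).1 (fun x hx => (hc x (hmemI x hx).1).1)
      (fun x hx => (hmemI x hx).2.1) (fun x hx => (hmemI x hx).2.2)
      (fun x hx => (hc x (hmemI x hx).1).2.1)
  calc I₀.card ≤ ((Icc 1 M).biUnion I).card := card_le_card hcover
    _ ≤ ∑ e ∈ Icc 1 M, (I e).card := card_biUnion_le
    _ ≤ ∑ _e ∈ Icc 1 M, (26 * KK * (3 * lam)) ^ (4 * KK + 2) := Finset.sum_le_sum hI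
    _ = bW M (D * 2 ^ M) lam := by
        rw [Finset.sum_const, Nat.card_Icc, Nat.add_sub_cancel, smul_eq_mul, ← hKK]
        rfl

end WX
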