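import Pool.Agent.LibMH.Stmt

/-!
# WQ: definitions used by the statement of `MP_c2d7b4_nt.HurwitzWords` (all rational numbers of bounded denominator)
-/

namespace WX

open Finset Pool.MH.Stmt

/-- The bound for the number of exceptional rational numbers. -/
noncomputable def EW (M K : ℕ) (L : ℝ) : ℝ := M * (80 * K * (L + 3)) ^ (4 * K + 2)

/-- At most `C` elements have the property `P`. -/
def AtMost {α : Type} (P : α → Prop) (C : ℝ) : Prop :=
  ∀ S : Finset α, (∀ a ∈ S, P a) → (S.card : ℝ) ≤ C

/-- Some polynomial relation of weight `≤ M` with coefficients in `V` between the numbers `ζ(u; y)`, `u` admissible words, does not hold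
identically in `y`. -/
def RelH (V : Submodule ℚ ℝ) (M : ℕ) (y : ℝ) : Prop :=
  ∃ P : MvPolynomial (List ℕ) ℝ, (∀ m, P.coeff m ∈ V) ∧
    (∀ m ∈ P.support, (∀ u ∈ m.support, Admissible u) ∧ (m.sum fun u i => i * u.sum) ≤ M) ∧
    MvPolynomial.eval (fun u => zetaH u y) P = 0 ∧
    ∃ z : ℝ, 0 < z ∧ MvPolynomial.eval (fun u => zetaH u z) P ≠ 0

/-- The exceptional points: the `ζ(u; y)`, `u ∈ W`, are linearly dependent over `V`, or there is a relation as in `RelH`. -/
def DepH (V : Submodule ℚ ℝ) (W : Finset (List ℕ)) (M : ℕ) (y : ℝ) : Prop :=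
  ¬ IndepV V W (fun u => zetaH u y) ∨ RelH V M y

end WX
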