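import Pool.Agent.LibMH.R2
import Pool.Agent.LibMH.TSW
import Pool.Agent.LibWX.WBase

/-!
# Row ST1: the stuffle product of two multiple Hurwitz zeta values (MEDIUM)

`stuffle_qs`: as `w2_mul` in LibWX/W2.lean (strong induction on `u.length + v.length`), with the words and natural coefficients explicit.  For `[]`: `Fc = {v}`, `a = 1`.  For `k :: u'`, `l :: v'` take the three
families for `(u', l :: v')`, `(k :: u', v')`, `(u', v')`, put `k`, `l`, `k + l` in front (`qs_cons`, the telescoping identity is at the end of `w2_mul`); to avoid unions use first the form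
`∃ L : List (List ℕ), (∀ w ∈ L, ..) ∧ ∀ t n, qs t u n * qs t v n = (L.map fun w => qs t w n).sum` (lists with repetitions: `L = L1.map (k :: ·) ++ L2.map (l :: ·) ++ L3.map ((k + l) :: ·)`), and in the end
`Fc = L.toFinset`, `a w = L.count w` (`Finset.sum_list_map_count`).  Admissible: the first letter of `w` is `k`, `l` or `k + l` (for `u' = []` etc. the words are `k :: w'` with `w'` any word of the family).
`tendsto_pw`: for `[]` constant; for `k :: v`: `(summable_sw ..).hasSum.tendsto_sum_nat`.
`stuffle`: choose `q : ℕ` with `q * y ≥ 1`, `x = q * y`: `pw q x u N * pw q x v N = ∑ a w * pw q x w N` (`pw_qs`), the limit `N → ∞` (`tendsto_nhds_unique`, `tendsto_finset_sum`) gives it for `sw q x`, `sw_scale` with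
`x / q = y` and `w.sum = u.sum + v.sum` gives it for `sw 1 y`, and `zetaH_eq`.
-/

namespace WX

open Finset CM68 Pool.MH.Stmt

private theorem st1_cons_sum (k : ℕ) (t : ℕ → ℝ) (n : ℕ) (L : List (List ℕ)) :
    ((L.map (k :: ·)).map fun w => qs t w n).sum =
      ∑ m ∈ range n, t m ^ k * (L.map fun w => qs t w m).sum := by
  induction L with
  | nil => simp
  | cons w L ih =>
    simp only [List.map_cons, List.sum_cons, mul_add, Finset.sum_add_distrib]
    rw [ih, qs_cons]

private theorem st1_pos_cons {k : ℕ} (hk : 1 ≤ k) {w : List ℕ} (hw : Pos w) : Pos (k :: w) := by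
  intro l hl
  rcases List.mem_cons.1 hl with rfl | h
  · exact hk
  · exact hw l h

private theorem st1_adms_cons {k : ℕ} (hk : 2 ≤ k) {w : List ℕ} (hw : Pos w) : Adms (k :: w) := by
  refine ⟨st1_pos_cons (by omega) hw, ?_⟩
  intro l hl
  simp only [List.head?_cons, Option.mem_def, Option.some.injEq] at hl
  omega

private theorem st1_adms_head {k : ℕ} {w : List ℕ} (h : Adms (k :: w)) : 2 ≤ k :=
  h.2 k (by simp)

private theorem st1_list (N : ℕ) : ∀ u v : List ℕ, u.length + v.length ≤ N → Pos u → Pos v →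
    ∃ L : List (List ℕ),
      (∀ w ∈ L, Pos w ∧ w.sum = u.sum + v.sum ∧ (Adms u → Adms v → Adms w)) ∧
      ∀ (t : ℕ → ℝ) (n : ℕ), qs t u n * qs t v n = (L.map fun w => qs t w n).sum := by
  induction N with
  | zero =>
    intro u v h hu hv
    have hu0 : u = [] := List.eq_nil_of_length_eq_zero (by omega)
    subst hu0
    refine ⟨[v], ?_, ?_⟩
    · intro w hw
      rw [List.mem_singleton] at hw
      subst hw
      exact ⟨hv, by simp, fun _ h => h⟩
    · intro t n
      simp [qs_nil]
  | succ N ih =>
    intro u v h hu hv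
    match u, v with
    | [], v =>
      refine ⟨[v], ?_, ?_⟩
      · intro w hw
        rw [List.mem_singleton] at hw
        subst hw
        exact ⟨hv, by simp, fun _ h => h⟩
      · intro t n
        simp [qs_nil]
    | u, [] =>
      refine ⟨[u], ?_, ?_⟩
      · intro w hw
        rw [List.mem_singleton] at hw
        subst hw
        exact ⟨hu, by simp, fun h _ => h⟩
      · intro t n
        simp [qs_nil]
    | k :: u', l :: v' =>
      have hk : 1 ≤ k := hu k (by simp)
      have hl : 1 ≤ l := hv l (by simp)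
      have hu' : Pos u' := fun a ha => hu a (by simp [ha])
      have hv' : Pos v' := fun a ha => hv a (by simp [ha])
      simp only [List.length_cons] at h
      obtain ⟨L1, p1, s1⟩ := ih u' (l :: v') (by simp only [List.length_cons]; omega) hu' hv
      obtain ⟨L2, p2, s2⟩ := ih (k :: u') v' (by simp only [List.length_cons]; omega) hu hv'
      obtain ⟨L3, p3, s3⟩ := ih u' v' (by omega) hu' hv'
      refine ⟨L1.map (k :: ·) ++ L2.map (l :: ·) ++ L3.map ((k + l) :: ·), ?_, ?_⟩
      · intro w hw
        rcases List.mem_append.1 hw with hw | hw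
        · rcases List.mem_append.1 hw with hw | hw
          · obtain ⟨x, hx, rfl⟩ := List.mem_map.1 hw
            obtain ⟨q1, q2, _⟩ := p1 x hx
            refine ⟨st1_pos_cons hk q1, ?_, ?_⟩
            · simp only [List.sum_cons] at q2 ⊢
              omega
            · intro h1 _
              exact st1_adms_cons (st1_adms_head h1) q1
          · obtain ⟨x, hx, rfl⟩ := List.mem_map.1 hw
            obtain ⟨q1, q2, _⟩ := p2 x hx
            refine ⟨st1_pos_cons hl q1, ?_, ?_⟩
            · simp only [List.sum_cons] at q2 ⊢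
              omega
            · intro _ h1
              exact st1_adms_cons (st1_adms_head h1) q1
        · obtain ⟨x, hx, rfl⟩ := List.mem_map.1 hw
          obtain ⟨q1, q2, _⟩ := p3 x hx
          refine ⟨st1_pos_cons (by omega) q1, ?_, ?_⟩
          · simp only [List.sum_cons] at q2 ⊢
            omega
          · intro _ _
            exact st1_adms_cons (by omega) q1
      · intro t n
        rw [List.map_append, List.map_append, List.sum_append, List.sum_append,
          st1_cons_sum, st1_cons_sum, st1_cons_sum]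
        have e1 : ∀ m, (L1.map fun w => qs t w m).sum = qs t u' m * qs t (l :: v') m :=
          fun m => (s1 t m).symm
        have e2 : ∀ m, (L2.map fun w => qs t w m).sum = qs t (k :: u') m * qs t v' m :=
          fun m => (s2 t m).symm
        have e3 : ∀ m, (L3.map fun w => qs t w m).sum = qs t u' m * qs t v' m :=
          fun m => (s3 t m).symm
        simp only [e1, e2, e3]
        clear e1 e2 e3
        induction n with
        | zero => simp [qs_cons]
        | succ n ihn =>
          rw [qs_cons t k u' (n + 1), qs_cons t l v' (n + 1)]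
          simp only [Finset.sum_range_succ]
          rw [← qs_cons t k u' n, ← qs_cons t l v' n, pow_add]
          linear_combination ihn

theorem stuffle_qs (u v : List ℕ) (hu : Pos u) (hv : Pos v) :
    ∃ (Fc : Finset (List ℕ)) (a : List ℕ → ℕ),
      (∀ w ∈ Fc, Pos w ∧ w.sum = u.sum + v.sum ∧ (Adms u → Adms v → Adms w)) ∧
      ∀ (t : ℕ → ℝ) (n : ℕ), qs t u n * qs t v n = ∑ w ∈ Fc, (a w : ℝ) * qs t w n := by
  classical
  obtain ⟨L, hL, hs⟩ := st1_list _ u v le_rfl hu hv
  refine ⟨L.toFinset, fun w => L.count w, fun w hw => hL w (List.mem_toFinset.1 hw), ?_⟩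
  intro t n
  rw [hs t n, Finset.sum_list_map_count]
  refine Finset.sum_congr rfl fun w _ => ?_
  rw [nsmul_eq_mul]
  congr 2
  simp only [List.count_eq_countP]
  congr 1
  funext x
  rw [Bool.eq_iff_iff]
  simp

theorem tendsto_pw {q : ℕ} (hq : 1 ≤ q) {x : ℝ} (hx : 1 ≤ x) {v : List ℕ} (h : Adms v) :
    Filter.Tendsto (fun N => pw q x v N) Filter.atTop (nhds (sw q x v)) := by
  cases v with
  | nil =>
    have h1 : (fun N => pw q x [] N) = fun _ => (1 : ℝ) := by
      funext N
      rw [pw]
    rw [h1, sw]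
    exact tendsto_const_nhds
  | cons k v =>
    have h1 := (summable_sw hq hx h).hasSum.tendsto_sum_nat
    have h2 : (fun N => pw q x (k :: v) N) =
        fun N => ∑ m ∈ range N, 1 / ((q : ℝ) * m + x) ^ k * pw q x v m := by
      funext N
      rw [pw]
    rw [h2, sw]
    exact h1

theorem stuffle {u v : List ℕ} (hu : Admissible u) (hv : Admissible v) :
    ∃ (Fc : Finset (List ℕ)) (a : List ℕ → ℕ),
      (∀ w ∈ Fc, Admissible w ∧ w.sum = u.sum + v.sum) ∧
      ∀ y : ℝ, 0 < y → zetaH u y * zetaH v y = ∑ w ∈ Fc, (a w : ℝ) * zetaH w y := by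
  have hu1 : Adms u := hu
  have hv1 : Adms v := hv
  obtain ⟨Fc, a, hF, hs⟩ := stuffle_qs u v hu.1 hv.1
  refine ⟨Fc, a, fun w hw => ⟨(hF w hw).2.2 hu1 hv1, (hF w hw).2.1⟩, ?_⟩
  intro y hy
  obtain ⟨q, hq⟩ := exists_nat_ge (1 / y)
  have hq0 : (0 : ℝ) < q := lt_of_lt_of_le (by positivity) hq
  have hq1 : 1 ≤ q := by
    have : 0 < q := by exact_mod_cast hq0
    omega
  have hx : (1 : ℝ) ≤ q * y := by
    rw [div_le_iff₀ hy] at hq
    exact hq
  have e : (q : ℝ) * y / q = y := by
    field_simp
  have key : sw q (q * y) u * sw q (q * y) v = ∑ w ∈ Fc, (a w : ℝ) * sw q (q * y) w := by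
    have t1 := (tendsto_pw hq1 hx hu1).mul (tendsto_pw hq1 hx hv1)
    have t2 : Filter.Tendsto (fun N => ∑ w ∈ Fc, (a w : ℝ) * pw q (q * y) w N) Filter.atTop
        (nhds (∑ w ∈ Fc, (a w : ℝ) * sw q (q * y) w)) :=
      tendsto_finsetSum _ fun w hw =>
        (tendsto_pw hq1 hx ((hF w hw).2.2 hu1 hv1)).const_mul _
    have t3 : (fun N => pw q (q * y) u N * pw q (q * y) v N) =
        fun N => ∑ w ∈ Fc, (a w : ℝ) * pw q (q * y) w N := by
      funext N
      rw [pw_qs, pw_qs, hs]
      exact Finset.sum_congr rfl fun w _ => by rw [pw_qs]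
    rw [t3] at t1
    exact tendsto_nhds_unique t1 t2
  rw [sw_scale hq1 (q * y) u, sw_scale hq1 (q * y) v, e] at key
  have key2 : ∑ w ∈ Fc, (a w : ℝ) * sw q (q * y) w =
      1 / (q : ℝ) ^ (u.sum + v.sum) * ∑ w ∈ Fc, (a w : ℝ) * sw 1 y w := by
    rw [Finset.mul_sum]
    refine Finset.sum_congr rfl fun w hw => ?_
    rw [sw_scale hq1 (q * y) w, e, (hF w hw).2.1]
    ring
  rw [key2, pow_add] at key
  have hne : (q : ℝ) ^ u.sum ≠ 0 := pow_ne_zero _ hq0.ne'
  have hne' : (q : ℝ) ^ v.sum ≠ 0 := pow_ne_zero _ hq0.ne'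
  have key3 : sw 1 y u * sw 1 y v = ∑ w ∈ Fc, (a w : ℝ) * sw 1 y w := by
    field_simp at key
    linear_combination key
  rw [zetaH_eq hy, zetaH_eq hy, key3]
  exact Finset.sum_congr rfl fun w _ => by rw [zetaH_eq hy]

end WX
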