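import Pool.Agent.LibMH.WMW
import Pool.Agent.LibWQ.HDefs
import Pool.Agent.LibWQ.ST1

/-!
# Row ST2: polynomials in the multiple Hurwitz zeta values are linear combinations (MEDIUM)

`AZ s F`: `F : ℝ → ℝ` is a natural combination of the `zetaH w`, `w` admissible of weight exactly `s`, on the positive reals.  Private lemmas: `AZ 0 1` (the empty word, `zetaH [] y = 1`: `zetaH_eq`, `sw`),
`AZ u.sum (zetaH u)`, `AZ s F → AZ s G → AZ s (F + G)` and multiples (convenient: the set of these functions as an `AddSubmonoid` generated by the restrictions of the `zetaH w`, `AddSubmonoid.closure_induction`),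
`AZ s F → AZ s' G → AZ (s + s') (F * G)` (`stuffle`), powers and finite products: `AZ (m.sum fun u i => i * u.sum) (fun y => m.prod fun u i => zetaH u y ^ i)`.
`poly_lin`: `MvPolynomial.eval_eq` : `eval f P = ∑ m ∈ P.support, P.coeff m * ∏ u ∈ m.support, f u ^ m u`; the coefficient of `w` is `∑ m ∈ P.support, P.coeff m * (natural number)`, in `V` (`nsmul`); words outside `W'` do not
occur.  `relH_dep`: if the numbers are independent and `P` is a relation at `y`, then all `c w = 0`, so `P` vanishes at every `z > 0`.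
-/

namespace WX

open Finset CM68 Pool.MH.Stmt

/-- natural combinations of the values of the admissible words of weight `s` -/
private def ST2_AZ (s : ℕ) (F : ℝ → ℝ) : Prop :=
  ∃ a : List ℕ →₀ ℕ, (∀ w, a w ≠ 0 → Admissible w ∧ w.sum = s) ∧
    ∀ y, 0 < y → F y = a.sum fun w n => (n : ℝ) * zetaH w y

private theorem ST2_zero (s : ℕ) : ST2_AZ s fun _ => 0 :=
  ⟨0, fun w h => absurd rfl h, fun y _ => by rw [Finsupp.sum_zero_index]⟩

private theorem ST2_add {s : ℕ} {F G : ℝ → ℝ} (hF : ST2_AZ s F) (hG : ST2_AZ s G) :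
    ST2_AZ s fun y => F y + G y := by
  obtain ⟨a, ha, hFa⟩ := hF
  obtain ⟨b, hb, hGb⟩ := hG
  refine ⟨a + b, fun w h => ?_, fun y hy => ?_⟩
  · by_cases h1 : a w = 0
    · refine hb w fun h2 => h ?_
      rw [Finsupp.add_apply, h1, h2]
    · exact ha w h1
  · change F y + G y = _
    rw [hFa y hy, hGb y hy, Finsupp.sum_add_index']
    · intro w
      rw [Nat.cast_zero, zero_mul]
    · intro w m n
      rw [Nat.cast_add, add_mul]

private theorem ST2_congr {s : ℕ} {F G : ℝ → ℝ} (hF : ST2_AZ s F) (h : ∀ y, 0 < y → G y = F y) :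
    ST2_AZ s G := by
  obtain ⟨a, ha, hFa⟩ := hF
  exact ⟨a, ha, fun y hy => (h y hy).trans (hFa y hy)⟩

private theorem ST2_nat {s : ℕ} {F : ℝ → ℝ} (hF : ST2_AZ s F) (n : ℕ) :
    ST2_AZ s fun y => (n : ℝ) * F y := by
  induction n with
  | zero => exact ST2_congr (ST2_zero s) fun y _ => by rw [Nat.cast_zero, zero_mul]
  | succ n ih => exact ST2_congr (ST2_add ih hF) fun y _ => by rw [Nat.cast_succ, add_mul, one_mul]

private theorem ST2_sum {ι : Type} {s : ℕ} (T : Finset ι) (F : ι → ℝ → ℝ) (hF : ∀ i ∈ T, ST2_AZ s (F i)) :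
    ST2_AZ s fun y => ∑ i ∈ T, F i y := by
  classical
  induction T using Finset.induction_on with
  | empty => exact ST2_congr (ST2_zero s) fun y _ => by rw [Finset.sum_empty]
  | insert i T hi ih =>
    exact ST2_congr (ST2_add (hF i (Finset.mem_insert_self i T))
      (ih fun j hj => hF j (Finset.mem_insert_of_mem hj))) fun y _ => by rw [Finset.sum_insert hi]

private theorem ST2_word {u : List ℕ} (hu : Admissible u) : ST2_AZ u.sum (zetaH u) := by
  refine ⟨Finsupp.single u 1, fun w h => ?_, fun y _ => ?_⟩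
  · by_cases hw : u = w
    · rw [← hw]
      exact ⟨hu, rfl⟩
    · rw [Finsupp.single_eq_of_ne (Ne.symm hw)] at h
      exact absurd rfl h
  · rw [Finsupp.sum_single_index (by rw [Nat.cast_zero, zero_mul]), Nat.cast_one, one_mul]

private theorem ST2_one : ST2_AZ 0 fun _ => 1 := by
  have h1 : Admissible [] := ⟨by simp, by simp⟩
  refine ST2_congr (ST2_word h1) fun y hy => ?_
  rw [zetaH_eq hy]
  rfl

private theorem ST2_stuffle {u v : List ℕ} (hu : Admissible u) (hv : Admissible v) :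
    ST2_AZ (u.sum + v.sum) fun y => zetaH u y * zetaH v y := by
  obtain ⟨Fc, a, hFc, h⟩ := stuffle hu hv
  refine ST2_congr (ST2_sum Fc (fun w y => (a w : ℝ) * zetaH w y) fun w hw => ?_) fun y hy => h y hy
  have h1 := ST2_word (hFc w hw).1
  rw [(hFc w hw).2] at h1
  exact ST2_nat h1 (a w)

private theorem ST2_mul {s t : ℕ} {F G : ℝ → ℝ} (hF : ST2_AZ s F) (hG : ST2_AZ t G) :
    ST2_AZ (s + t) fun y => F y * G y := by
  obtain ⟨a, ha, hFa⟩ := hF
  obtain ⟨b, hb, hGb⟩ := hG
  refine ST2_congr (ST2_sum a.support (fun w y => ∑ v ∈ b.support,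
    ((a w : ℝ) * ((b v : ℝ) * (zetaH w y * zetaH v y)))) fun w hw => ?_) fun y hy => ?_
  · refine ST2_sum b.support _ fun v hv => ?_
    obtain ⟨hw1, hw2⟩ := ha w (Finsupp.mem_support_iff.1 hw)
    obtain ⟨hv1, hv2⟩ := hb v (Finsupp.mem_support_iff.1 hv)
    have h1 := ST2_stuffle hw1 hv1
    rw [hw2, hv2] at h1
    exact ST2_nat (ST2_nat h1 (b v)) (a w)
  · rw [hFa y hy, hGb y hy, Finsupp.sum, Finsupp.sum, Finset.sum_mul_sum]
    refine Finset.sum_congr rfl fun w _ => Finset.sum_congr rfl fun v _ => ?_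
    ring

private theorem ST2_pow {s : ℕ} {F : ℝ → ℝ} (hF : ST2_AZ s F) (i : ℕ) :
    ST2_AZ (i * s) fun y => F y ^ i := by
  induction i with
  | zero =>
    rw [zero_mul]
    exact ST2_congr ST2_one fun y _ => by rw [pow_zero]
  | succ i ih =>
    rw [Nat.succ_mul]
    exact ST2_congr (ST2_mul ih hF) fun y _ => by rw [pow_succ]

private theorem ST2_prod (m : List ℕ →₀ ℕ) (T : Finset (List ℕ)) (hT : ∀ u ∈ T, Admissible u) :
    ST2_AZ (∑ u ∈ T, m u * u.sum) fun y => ∏ u ∈ T, zetaH u y ^ m u := by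
  classical
  induction T using Finset.induction_on with
  | empty =>
    rw [Finset.sum_empty]
    exact ST2_congr ST2_one fun y _ => by rw [Finset.prod_empty]
  | insert u T hu ih =>
    rw [Finset.sum_insert hu]
    exact ST2_congr (ST2_mul (ST2_pow (ST2_word (hT u (Finset.mem_insert_self u T))) (m u))
      (ih fun v hv => hT v (Finset.mem_insert_of_mem hv))) fun y _ => by rw [Finset.prod_insert hu]

theorem poly_lin {M : ℕ} {W' : Finset (List ℕ)} (hW' : ∀ w, w ∈ W' ↔ Admissible w ∧ w.sum ≤ M)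
    {V : Submodule ℚ ℝ} {P : MvPolynomial (List ℕ) ℝ} (hV : ∀ m, P.coeff m ∈ V)
    (hP : ∀ m ∈ P.support, (∀ u ∈ m.support, Admissible u) ∧ (m.sum fun u i => i * u.sum) ≤ M) :
    ∃ c : List ℕ → ℝ, (∀ w ∈ W', c w ∈ V) ∧
      ∀ y : ℝ, 0 < y → MvPolynomial.eval (fun u => zetaH u y) P = ∑ w ∈ W', c w * zetaH w y := by
  have key : ∀ m ∈ P.support, ∃ a : List ℕ →₀ ℕ, (∀ w, a w ≠ 0 → w ∈ W') ∧
      ∀ y, 0 < y → ∏ u ∈ m.support, zetaH u y ^ m u = ∑ w ∈ W', (a w : ℝ) * zetaH w y := by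
    intro m hm
    obtain ⟨h1, h2⟩ := hP m hm
    obtain ⟨a, ha, hy⟩ := ST2_prod m m.support h1
    have ha' : ∀ w, a w ≠ 0 → w ∈ W' := fun w hw =>
      (hW' w).2 ⟨(ha w hw).1, (ha w hw).2.trans_le h2⟩
    refine ⟨a, ha', fun y hy0 => ?_⟩
    refine (hy y hy0).trans ?_
    rw [Finsupp.sum]
    refine Finset.sum_subset (fun w hw => ha' w (Finsupp.mem_support_iff.1 hw)) fun w _ hw => ?_
    rw [Finsupp.notMem_support_iff.1 hw, Nat.cast_zero, zero_mul]
  choose! A _ hA using key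
  refine ⟨fun w => ∑ m ∈ P.support, P.coeff m * (A m w : ℝ), fun w _ => ?_, fun y hy => ?_⟩
  · refine Submodule.sum_mem _ fun m _ => ?_
    have h1 : P.coeff m * (A m w : ℝ) = A m w • P.coeff m := by
      rw [nsmul_eq_mul, mul_comm]
    rw [h1]
    exact nsmul_mem (hV m) _
  · rw [MvPolynomial.eval_eq]
    have h1 : ∀ m ∈ P.support, P.coeff m * ∏ u ∈ m.support, zetaH u y ^ m u =
        ∑ w ∈ W', P.coeff m * (A m w : ℝ) * zetaH w y := by
      intro m hm
      rw [hA m hm y hy, Finset.mul_sum]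
      refine Finset.sum_congr rfl fun w _ => ?_
      rw [mul_assoc]
    rw [Finset.sum_congr rfl h1, Finset.sum_comm]
    refine Finset.sum_congr rfl fun w _ => ?_
    rw [Finset.sum_mul]

theorem relH_dep {M : ℕ} {W' : Finset (List ℕ)} (hW' : ∀ w, w ∈ W' ↔ Admissible w ∧ w.sum ≤ M)
    {V : Submodule ℚ ℝ} {y : ℝ} (hy : 0 < y) (h : IndepV V W' fun u => zetaH u y) :
    ¬ RelH V M y := by
  rintro ⟨P, hV, hP, h0, z, hz, hne⟩
  obtain ⟨c, hc, hev⟩ := poly_lin hW' hV hP
  rw [hev y hy] at h0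
  have h1 := h c hc h0
  apply hne
  rw [hev z hz]
  refine Finset.sum_eq_zero fun w hw => ?_
  rw [h1 w hw, zero_mul]

end WX
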