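import Pool.Agent.LibMH.MZW
import Pool.Agent.LibWQ.FIN
import Pool.Agent.LibWQ.ST2

/-!
# The final forms: all rational numbers of bounded denominator (helper68)
-/

namespace WX

open Finset CM68 Pool.MH.Stmt

theorem bW_real {Q w K : ℕ} (hQ : 2 ≤ Q) : (bW w K (LX Q) : ℝ) ≤ EW w K (Real.log Q) := by
  have hlog : 0 ≤ Real.log Q := Real.log_nonneg (by exact_mod_cast (by omega : 1 ≤ Q))
  have h1 : (LX Q : ℝ) ≤ Real.log Q + 3 := by
    unfold LX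
    push_cast
    linarith [Nat.ceil_lt_add_one hlog]
  have h0 : (0 : ℝ) ≤ LX Q := Nat.cast_nonneg _
  unfold bW EW
  push_cast
  have h4 : 26 * (K : ℝ) * (3 * (LX Q : ℝ)) ≤ 80 * K * (Real.log Q + 3) := by
    have hK : (0 : ℝ) ≤ K := Nat.cast_nonneg _
    have h5 : (K : ℝ) * LX Q ≤ K * (Real.log Q + 3) := mul_le_mul_of_nonneg_left h1 hK
    nlinarith
  have h5 : (0 : ℝ) ≤ 26 * (K : ℝ) * (3 * (LX Q : ℝ)) := by positivity
  exact mul_le_mul_of_nonneg_left (pow_le_pow_left₀ h5 h4 _) (Nat.cast_nonneg _)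

theorem EW_le_EP {M K : ℕ} {L : ℝ} (hMK : M ≤ K) (hL : 1 ≤ L) : EW M K L ≤ EP 1 (K + 1) L := by
  unfold EW EP
  have hK : (0 : ℝ) ≤ K := Nat.cast_nonneg _
  have hM : (M : ℝ) ≤ K := by exact_mod_cast hMK
  obtain ⟨b, hb⟩ : ∃ b : ℝ, b = 416 * ((K + 1 : ℕ) : ℝ) * L ^ 2 := ⟨_, rfl⟩
  have hL2 : (1 : ℝ) ≤ L ^ 2 := one_le_pow₀ hL
  have hLL : L ≤ L ^ 2 := by nlinarith
  have hb1 : (1 : ℝ) ≤ b := by
    rw [hb]
    push_cast
    nlinarith [mul_nonneg hK (by linarith : (0 : ℝ) ≤ L ^ 2)]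
  have hbM : (M : ℝ) ≤ b := by
    rw [hb]
    push_cast
    nlinarith [mul_nonneg hK (by linarith : (0 : ℝ) ≤ L ^ 2 - 1)]
  have hb2 : 80 * (K : ℝ) * (L + 3) ≤ b := by
    rw [hb]
    push_cast
    have h1 : L + 3 ≤ 4 * L ^ 2 := by linarith
    nlinarith [mul_nonneg hK (by linarith : (0 : ℝ) ≤ 4 * L ^ 2 - (L + 3)),
      mul_nonneg hK (by linarith : (0 : ℝ) ≤ L ^ 2)]
  have h5 : (0 : ℝ) ≤ 80 * K * (L + 3) := by positivity
  rw [← hb, Nat.cast_one, one_mul]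
  calc (M : ℝ) * (80 * K * (L + 3)) ^ (4 * K + 2) ≤ b * b ^ (4 * K + 2) :=
        mul_le_mul hbM (pow_le_pow_left₀ h5 hb2 _) (pow_nonneg h5 _) (by linarith)
    _ = b ^ (4 * K + 3) := by ring
    _ ≤ b ^ (6 * (K + 1) + 2) := pow_le_pow_right₀ hb1 (by omega)

theorem atMost_mono {α : Type} {P P' : α → Prop} {C C' : ℝ} (h : AtMost P C)
    (hP : ∀ a, P' a → P a) (hC : C ≤ C') : AtMost P' C' :=
  fun S hS => (h S fun a ha => hP a (hS a ha)).trans hC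

/-- pull back along a map which is injective on the exceptional set -/
theorem atMost_inj {α β : Type} {P : α → Prop} {P' : β → Prop} {C : ℝ} (h : AtMost P C)
    (f : β → α) (hinj : ∀ b b', P' b → P' b' → f b = f b' → b = b') (hP : ∀ b, P' b → P (f b)) :
    AtMost P' C := by
  classical
  intro S hS
  have h1 : (S.image f).card = S.card :=
    card_image_of_injOn fun b hb b' hb' he => hinj b b' (hS b hb) (hS b' hb') he
  rw [← h1]
  refine h _ fun a ha => ?_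
  obtain ⟨b, hb, rfl⟩ := mem_image.1 ha
  exact hP b (hS b hb)

private theorem den_two {y : ℚ} (h0 : 0 < y) (h1 : y < 1) : 2 ≤ y.den := by
  have hpos := y.pos
  by_contra hcon
  have h2 : y.den = 1 := by omega
  have h3 : (y.num : ℚ) = y := (Rat.den_eq_one_iff y).1 h2
  rw [← h3] at h0 h1
  have h4 : (0 : ℤ) < y.num := by exact_mod_cast h0
  have h5 : y.num < (1 : ℤ) := by exact_mod_cast h1
  omega

private theorem lev_div {q : ℕ} {y : ℚ} (hq : 1 ≤ q) (h0 : 0 ≤ y) (hd : y.den ∣ q) :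
    ((lev q y : ℕ) : ℝ) / q = (y : ℝ) := by
  have h1 := lev_cast h0 hd
  have h2 : ((lev q y : ℕ) : ℝ) = (y : ℝ) * q := by
    have h3 := congrArg (fun z : ℚ => (z : ℝ)) h1
    push_cast at h3
    exact h3
  have h3 : (q : ℝ) ≠ 0 := by
    have : (0 : ℝ) < q := by exact_mod_cast hq
    exact this.ne'
  rw [h2, mul_div_assoc, div_self h3, mul_one]

private theorem lev_pos' {q : ℕ} {y : ℚ} (hq : 1 ≤ q) (h0 : 0 < y) (hd : y.den ∣ q) :
    0 < lev q y := by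
  have h4 : (0 : ℚ) < ((lev q y : ℕ) : ℚ) := by
    rw [lev_cast h0.le hd]
    have : (0 : ℚ) < q := by exact_mod_cast hq
    positivity
  exact_mod_cast h4

/-- independence of all words of weight at most `M` -/
theorem words_all {M D Q : ℕ} (hM : 1 ≤ M) (hQ : 2 ≤ Q) {V : Submodule ℚ ℝ}
    (hVf : Module.Finite ℚ V) (hVD : Module.finrank ℚ V ≤ D) {W' : Finset (List ℕ)}
    (hW' : ∀ w, w ∈ W' ↔ Admissible w ∧ w.sum ≤ M) (hcardW : W'.card ≤ 2 ^ (M - 1)) :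
    AtMost (fun y : ℚ => 0 < y ∧ y < 1 ∧ y.den ≤ Q ∧ ¬ IndepV V W' fun u => zetaH u (y : ℝ))
      (EW M (D * 2 ^ M) (Real.log Q)) := by
  classical
  intro Y hY
  obtain ⟨q, hq⟩ : ∃ q, q = Q.factorial := ⟨_, rfl⟩
  have hq2 : 2 ≤ q := by
    rw [hq]
    exact hQ.trans (Nat.self_le_factorial Q)
  have hden : ∀ y ∈ Y, y.den ∣ q := fun y hy => by
    rw [hq]
    exact Nat.dvd_factorial y.pos (hY y hy).2.2.1
  have hcard : (Y.image (lev q)).card = Y.card := by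
    refine card_image_of_injOn ?_
    intro y hy y' hy' h
    exact lev_inj (by omega) (hY y hy).1.le (hY y' hy').1.le (hden y hy) (hden y' hy') h
  rw [← hcard]
  refine le_trans ?_ (bW_real hQ)
  have hcount := count_wordsQ (D := D) (q := q) (Qb := Q) (lam := LX Q) hM hq2 hQ (le_LX Q) hVf hVD
    hW' hcardW (Y.image (lev q)) (fun x hx => by
      obtain ⟨y, hy, rfl⟩ := mem_image.1 hx
      obtain ⟨h0, h1, h2, h3⟩ := hY y hy
      refine ⟨lev_pos' (by omega) h0 (hden y hy), lev_lt (by omega) h0.le h1 (hden y hy), ?_⟩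
      rw [lev_div (by omega) h0.le (hden y hy)]
      exact h3) (fun x hx => by
      obtain ⟨y, hy, rfl⟩ := mem_image.1 hx
      obtain ⟨h0, h1, h2, h3⟩ := hY y hy
      have h6 : q = q / y.den * y.den := (Nat.div_mul_cancel (hden y hy)).symm
      exact ⟨q / y.den, y.den, den_two h0 h1, h2, h6, lev_dvd h6 h0.le dvd_rfl⟩)
  exact_mod_cast hcount

/-- the exceptional points among all positive rational numbers, modulo one -/
theorem dep_EW {M D Q : ℕ} (hM : 1 ≤ M) (hQ : 2 ≤ Q) {V : Submodule ℚ ℝ}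
    (hVf : Module.Finite ℚ V) (hVD : Module.finrank ℚ V ≤ D) {W : Finset (List ℕ)}
    (hadm : ∀ u ∈ W, Admissible u ∧ u.sum ≤ M) :
    AtMost (fun y : ℚ => 0 < y ∧ y < 1 ∧ y.den ≤ Q ∧ ∃ n : ℕ, DepH V W M ((y : ℝ) + n))
      (EW M (D * 2 ^ M) (Real.log Q)) := by
  obtain ⟨W', hW', hcardW⟩ := exists_allWords M hM
  refine atMost_mono (words_all (D := D) hM hQ hVf hVD hW' hcardW) ?_ le_rfl
  rintro y ⟨h0, h1, h2, n, hn⟩
  refine ⟨h0, h1, h2, fun hI => ?_⟩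
  have hy : (y : ℝ) = ((y.num.toNat : ℕ) : ℝ) / (y.den : ℕ) := by
    have h3 : 0 ≤ y.num := Rat.num_nonneg.2 h0.le
    have h4 : ((y.num.toNat : ℕ) : ℝ) = (y.num : ℝ) := by
      have : ((y.num.toNat : ℕ) : ℤ) = y.num := Int.toNat_of_nonneg h3
      exact_mod_cast congrArg (Int.cast : ℤ → ℝ) this
    rw [h4]
    exact_mod_cast (Rat.cast_def (K := ℝ) y)
  have hx1 : 1 ≤ y.num.toNat := by
    have h3 : 0 < y.num := Rat.num_pos.2 h0
    omega
  rw [hy] at hI hn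
  have hIn := indep_shift (x := y.num.toNat) (q := y.den) hx1 y.pos hW' hI n
  have hsub : W ⊆ W' := fun u hu => (hW' u).2 (hadm u hu)
  have hpos : (0 : ℝ) < ((y.num.toNat : ℕ) : ℝ) / (y.den : ℕ) + n := by
    have h3 : (0 : ℝ) < ((y.num.toNat : ℕ) : ℝ) / (y.den : ℕ) := by
      rw [← hy]
      exact_mod_cast h0
    have h4 : (0 : ℝ) ≤ (n : ℝ) := Nat.cast_nonneg n
    linarith
  rcases hn with hn | hn
  · exact hn (indepV_mono le_rfl hsub hIn)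
  · exact relH_dep hW' hpos hIn hn

/-- a positive rational number is a number in `(0, 1)` plus a natural number -/
private theorem fract_split {z : ℚ} (hz : 0 ≤ z) (hf : Int.fract z ≠ 0) :
    0 < Int.fract z ∧ Int.fract z < 1 ∧ ∃ n : ℕ, (z : ℝ) = ((Int.fract z : ℚ) : ℝ) + n := by
  refine ⟨lt_of_le_of_ne (Int.fract_nonneg z) (Ne.symm hf), Int.fract_lt_one z, ⌊z⌋.toNat, ?_⟩
  have h1 : ((⌊z⌋.toNat : ℕ) : ℤ) = ⌊z⌋ := Int.toNat_of_nonneg (Int.floor_nonneg.2 hz)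
  have h2 : (((Int.fract z : ℚ) + ((⌊z⌋.toNat : ℕ) : ℚ) : ℚ)) = z := by
    have h3 : ((⌊z⌋.toNat : ℕ) : ℚ) = ((⌊z⌋ : ℤ) : ℚ) := by
      exact_mod_cast congrArg (Int.cast : ℤ → ℚ) h1
    rw [h3]
    exact Int.fract_add_floor z
  have h4 := congrArg (fun t : ℚ => (t : ℝ)) h2
  push_cast at h4
  push_cast
  exact h4.symm

private theorem fract_den (z : ℚ) : (Int.fract z).den = z.den := by
  have h1 : Int.fract z = z + ((-⌊z⌋ : ℤ) : ℚ) := by
    rw [Int.fract]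
    push_cast
    ring
  rw [h1, Rat.add_intCast_den]

/-- any family of non-integral rational numbers -/
theorem dep_family {M D Q : ℕ} (hM : 1 ≤ M) (hQ : 2 ≤ Q) {V : Submodule ℚ ℝ}
    (hVf : Module.Finite ℚ V) (hVD : Module.finrank ℚ V ≤ D) {W : Finset (List ℕ)}
    (hadm : ∀ u ∈ W, Admissible u ∧ u.sum ≤ M) (P : ℕ → Prop) (f : ℕ → ℚ)
    (h0 : ∀ n, P n → 0 ≤ f n ∧ Int.fract (f n) ≠ 0 ∧ (f n).den ≤ Q ∧ DepH V W M (f n : ℝ))
    (hinj : ∀ n n', P n → P n' → Int.fract (f n) = Int.fract (f n') → n = n') :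
    AtMost P (EW M (D * 2 ^ M) (Real.log Q)) := by
  refine atMost_inj (dep_EW hM hQ hVf hVD hadm) (fun n => Int.fract (f n)) hinj ?_
  intro n hn
  obtain ⟨h1, h2, h3, h4⟩ := h0 n hn
  obtain ⟨h5, h6, k, hk⟩ := fract_split h1 h2
  exact ⟨h5, h6, by rw [fract_den]; exact h3, k, by rw [← hk]; exact h4⟩

/-- the moduli -/
theorem dep_mod {M D Q : ℕ} (hM : 1 ≤ M) (hQ : 2 ≤ Q) {V : Submodule ℚ ℝ}
    (hVf : Module.Finite ℚ V) (hVD : Module.finrank ℚ V ≤ D) {W : Finset (List ℕ)}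
    (hadm : ∀ u ∈ W, Admissible u ∧ u.sum ≤ M) :
    AtMost (fun q : ℕ => 2 ≤ q ∧ q ≤ Q ∧ ∃ x : ℕ, x.Coprime q ∧ DepH V W M ((x : ℝ) / q))
      (EW M (D * 2 ^ M) (Real.log Q)) := by
  have hex : ∀ q : ℕ, ∃ x : ℕ, (2 ≤ q ∧ q ≤ Q ∧ ∃ x : ℕ, x.Coprime q ∧ DepH V W M ((x : ℝ) / q)) →
      x.Coprime q ∧ DepH V W M ((x : ℝ) / q) := by
    intro q
    by_cases h : 2 ≤ q ∧ q ≤ Q ∧ ∃ x : ℕ, x.Coprime q ∧ DepH V W M ((x : ℝ) / q)
    · obtain ⟨x, hx⟩ := h.2.2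
      exact ⟨x, fun _ => hx⟩
    · exact ⟨0, fun h' => absurd h' h⟩
  choose x hx using hex
  have hden : ∀ q : ℕ, (2 ≤ q ∧ q ≤ Q ∧ ∃ x : ℕ, x.Coprime q ∧ DepH V W M ((x : ℝ) / q)) →
      ((x q : ℚ) / (q : ℚ)).den = q := by
    intro q hq
    have h1 := Rat.den_div_eq_of_coprime (a := (x q : ℤ)) (b := (q : ℤ))
      (by have := hq.1; omega) (by simpa using (hx q hq).1)
    have h2 : (((x q : ℤ) : ℚ) / ((q : ℤ) : ℚ)) = (x q : ℚ) / (q : ℚ) := by push_cast; rfl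
    rw [h2] at h1
    exact_mod_cast h1
  refine dep_family hM hQ hVf hVD hadm _ (fun q => (x q : ℚ) / (q : ℚ)) ?_ ?_
  · intro q hq
    refine ⟨by positivity, ?_, by rw [hden q hq]; exact hq.2.1, ?_⟩
    · intro h
      have h1 := fract_den ((x q : ℚ) / (q : ℚ))
      rw [h, hden q hq] at h1
      have h2 : (0 : ℚ).den = 1 := rfl
      have := hq.1
      omega
    · have : (((x q : ℚ) / (q : ℚ) : ℚ) : ℝ) = (x q : ℝ) / (q : ℝ) := by push_cast; rfl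
      rw [this]
      exact (hx q hq).2
  · intro q q' hq hq' h
    have h1 := fract_den ((x q : ℚ) / (q : ℚ))
    have h2 := fract_den ((x q' : ℚ) / (q' : ℚ))
    rw [← hden q hq, ← hden q' hq', ← h1, ← h2]
    exact congrArg Rat.den h

/-- the points `t + 1 / n`, which tend to `t` -/
theorem dep_near {M D Q : ℕ} (hM : 1 ≤ M) (hQ : 2 ≤ Q) {V : Submodule ℚ ℝ}
    (hVf : Module.Finite ℚ V) (hVD : Module.finrank ℚ V ≤ D) {W : Finset (List ℕ)}
    (hadm : ∀ u ∈ W, Admissible u ∧ u.sum ≤ M) {t : ℚ} (ht : 0 ≤ t) :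
    AtMost (fun n : ℕ => 1 ≤ n ∧ n ≤ Q ∧ (∀ z : ℤ, t + 1 / (n : ℚ) ≠ z) ∧
      DepH V W M ((t : ℝ) + 1 / (n : ℝ))) (EW M (D * 2 ^ M) (Real.log (t.den * Q))) := by
  have htQ : 2 ≤ t.den * Q := by
    have := t.pos
    calc 2 ≤ Q := hQ
      _ ≤ t.den * Q := Nat.le_mul_of_pos_left _ t.pos
  have hc : (t.den : ℝ) * (Q : ℝ) = ((t.den * Q : ℕ) : ℝ) := by push_cast; ring
  rw [hc]
  refine dep_family hM htQ hVf hVD hadm _ (fun n => t + 1 / (n : ℚ)) ?_ ?_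
  · rintro n ⟨h1, h2, h3, h4⟩
    have hn : (0 : ℚ) < n := by exact_mod_cast h1
    refine ⟨by positivity, ?_, ?_, ?_⟩
    · intro h
      rw [Int.fract_eq_iff] at h
      obtain ⟨-, -, z, hz⟩ := h
      refine h3 z ?_
      rw [← hz]
      ring
    · have e1 : (t + 1 / (n : ℚ)) = ((t.num * n + t.den : ℤ) : ℚ) / ((t.den * n : ℕ) : ℤ) := by
        have h5 : ((t.num : ℤ) : ℚ) = t * t.den := (Rat.mul_den_eq_num t).symm
        have h6 : (t.den : ℚ) ≠ 0 := by exact_mod_cast t.den_nz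
        push_cast
        rw [h5]
        field_simp
      have e2 : (t + 1 / (n : ℚ)).den ∣ t.den * n := by
        rw [e1]
        have := Rat.den_dvd (t.num * n + t.den : ℤ) ((t.den * n : ℕ) : ℤ)
        rw [Rat.divInt_eq_div] at this
        exact_mod_cast this
      exact (Nat.le_of_dvd (Nat.mul_pos t.pos (by omega)) e2).trans (Nat.mul_le_mul_left _ h2)
    · have : ((t + 1 / (n : ℚ) : ℚ) : ℝ) = (t : ℝ) + 1 / (n : ℝ) := by push_cast; rfl
      rw [this]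
      exact h4
  · rintro n n' ⟨h1, -, -, -⟩ ⟨h1', -, -, -⟩ h
    have hn : (1 : ℚ) ≤ n := by exact_mod_cast h1
    have hn' : (1 : ℚ) ≤ n' := by exact_mod_cast h1'
    rw [Int.fract_eq_fract] at h
    obtain ⟨z, hz⟩ := h
    have e1 : 1 / (n : ℚ) - 1 / (n' : ℚ) = z := by
      rw [← hz]
      ring
    have h2 : 0 < 1 / (n : ℚ) := by positivity
    have h3 : 0 < 1 / (n' : ℚ) := by positivity
    have h4 : 1 / (n : ℚ) ≤ 1 := by
      rw [div_le_one (by linarith)]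
      exact hn
    have h5 : 1 / (n' : ℚ) ≤ 1 := by
      rw [div_le_one (by linarith)]
      exact hn'
    have h6 : (z : ℚ) < 1 := by linarith
    have h7 : (-1 : ℚ) < z := by linarith
    have h8 : z < 1 := by exact_mod_cast h6
    have h9 : -1 < z := by exact_mod_cast h7
    have h10 : z = 0 := by omega
    rw [h10, Int.cast_zero] at e1
    have e2 : 1 / (n : ℚ) = 1 / (n' : ℚ) := by linarith
    rw [div_eq_div_iff (by linarith) (by linarith), one_mul, one_mul] at e2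
    exact_mod_cast e2.symm

/-- the weight and the dimension may tend to infinity with `Q` -/
theorem dep_growing {η : ℝ} (h0 : 0 < η) (h1 : η < 1 / 2) :
    ∃ Q₀ : ℕ, ∀ Q : ℕ, Q₀ ≤ Q → ∀ M D : ℕ, 1 ≤ M → 1 ≤ D →
      (D : ℝ) * 2 ^ M ≤ Real.log Q ^ (1 - 2 * η) →
      ∀ V : Submodule ℚ ℝ, Module.Finite ℚ V → Module.finrank ℚ V ≤ D →
      ∀ W : Finset (List ℕ), (∀ u ∈ W, Admissible u ∧ u.sum ≤ M) →
      AtMost (fun y : ℚ => 0 < y ∧ y < 1 ∧ y.den ≤ Q ∧ ∃ n : ℕ, DepH V W M ((y : ℝ) + n))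
        (Real.exp (Real.log Q ^ (1 - η))) := by
  obtain ⟨L₀, hL₀, hG⟩ := growthX_aux 1 2 h0 h1
  refine ⟨⌈Real.exp L₀⌉₊ + 2, fun Q hQ M D hM1 hD1 hK V hVf hVD W hadm => ?_⟩
  have hQR : Real.exp L₀ ≤ Q := by
    have h2 := Nat.le_ceil (Real.exp L₀)
    have h3 : ((⌈Real.exp L₀⌉₊ : ℕ) : ℝ) ≤ Q := by exact_mod_cast (by omega : ⌈Real.exp L₀⌉₊ ≤ Q)
    linarith
  have hQ0 : (0 : ℝ) < Q := (Real.exp_pos _).trans_le hQR
  have hL : L₀ ≤ Real.log Q := (Real.le_log_iff_exp_le hQ0).2 hQR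
  have hL1 : 1 ≤ Real.log Q := hL₀.trans hL
  obtain ⟨K, hKdef⟩ : ∃ K, K = D * 2 ^ M := ⟨_, rfl⟩
  have hKR : (K : ℝ) ≤ Real.log Q ^ (1 - 2 * η) := by
    rw [hKdef]
    push_cast
    exact hK
  have hMK : M ≤ K := by
    have h2 : M < 2 ^ M := Nat.lt_two_pow_self
    have h3 : 2 ^ M ≤ D * 2 ^ M := Nat.le_mul_of_pos_left _ (by omega)
    omega
  have hK1R : (1 : ℝ) ≤ K := by exact_mod_cast (by omega : 1 ≤ K)
  have h3 := hG (Real.log Q) hL (K + 1) (by push_cast; linarith)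
  refine atMost_mono (dep_EW hM1 (by omega) hVf hVD hadm) (fun _ h => h) ?_
  rw [← hKdef]
  exact (EW_le_EP hMK hL1).trans h3

end WX
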